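import Pool.Agent.H294.DP.Rho

/-! # Taylor bounds and asymptotics of the correlation -/

set_option autoImplicit false

open Filter Finset
open Pool.Agent.H964.DP (V ns stp avg Asym Prof)

namespace Pool.Agent.H294.DP

/-- second order Taylor bound -/
lemma taylor_up {g g' g'' : ℝ → ℝ} {l u m : ℝ} (h1 : ∀ s, l ≤ s → s ≤ u → HasDerivAt g (g' s) s)
    (h2 : ∀ s, l ≤ s → s ≤ u → HasDerivAt g' (g'' s) s) (h3 : ∀ s, l ≤ s → s ≤ u → g'' s ≤ m)
    {s x : ℝ} (hl : l ≤ s) (hu : s ≤ u) (hl' : l ≤ s + x) (hu' : s + x ≤ u) :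
    g (s + x) ≤ g s + g' s * x + m / 2 * x ^ 2 := by
  -- `k w = g w - g s - g' s (w - s) - m / 2 (w - s)^2`
  have hk : ∀ w, l ≤ w → w ≤ u → HasDerivAt
      (fun w => g w - g' s * (w - s) - m / 2 * (w - s) ^ 2) (g' w - g' s - m * (w - s)) w := by
    intro w hw1 hw2
    have a1 := h1 w hw1 hw2
    have a2 : HasDerivAt (fun w : ℝ => g' s * (w - s)) (g' s) w := by
      have := ((hasDerivAt_id w).sub_const s).const_mul (g' s)
      simpa using this
    have a3 : HasDerivAt (fun w : ℝ => m / 2 * (w - s) ^ 2) (m * (w - s)) w := by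
      have := (((hasDerivAt_id w).sub_const s).pow 2).const_mul (m / 2)
      have e : m / 2 * (((2 : ℕ) : ℝ) * (id w - s) ^ (2 - 1) * 1) = m * (w - s) := by
        simp only [id]; norm_num; ring
      rw [e] at this
      exact this
    exact (a1.sub a2).sub a3
  have hk' : ∀ w, l ≤ w → w ≤ u → HasDerivAt (fun w => g' w - g' s - m * (w - s)) (g'' w - m) w := by
    intro w hw1 hw2
    have a1 := (h2 w hw1 hw2).sub_const (g' s)
    have a2 : HasDerivAt (fun w : ℝ => m * (w - s)) m w := by
      have := ((hasDerivAt_id w).sub_const s).const_mul m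
      simpa using this
    exact a1.sub a2
  rcases lt_trichotomy x 0 with hx | hx | hx
  · -- x < 0
    obtain ⟨c, hc, hc'⟩ := exists_hasDerivAt_eq_slope
      (fun w => g w - g' s * (w - s) - m / 2 * (w - s) ^ 2) (fun w => g' w - g' s - m * (w - s))
      (show s + x < s by linarith)
      (fun w hw => (hk w (by linarith [hw.1]) (by linarith [hw.2])).continuousAt.continuousWithinAt)
      (fun w hw => hk w (by linarith [hw.1]) (by linarith [hw.2]))
    obtain ⟨b, hb, hb'⟩ := exists_hasDerivAt_eq_slope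
      (fun w => g' w - g' s - m * (w - s)) (fun w => g'' w - m) hc.2
      (fun w hw => (hk' w (by linarith [hw.1, hc.1]) (by linarith [hw.2])).continuousAt.continuousWithinAt)
      (fun w hw => hk' w (by linarith [hw.1, hc.1]) (by linarith [hw.2]))
    have hb3 := h3 b (by linarith [hb.1, hc.1]) (by linarith [hb.2])
    have p1 : 0 < s - c := by linarith [hc.2]
    have p2 : 0 < s - (s + x) := by linarith
    rw [eq_div_iff p1.ne'] at hb'
    rw [eq_div_iff p2.ne'] at hc'
    simp only [sub_self, mul_zero, sub_zero] at hb' hc'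
    have q1 : 0 ≤ g' c - g' s - m * (c - s) := by nlinarith
    nlinarith
  · subst hx; simp
  · obtain ⟨c, hc, hc'⟩ := exists_hasDerivAt_eq_slope
      (fun w => g w - g' s * (w - s) - m / 2 * (w - s) ^ 2) (fun w => g' w - g' s - m * (w - s))
      (show s < s + x by linarith)
      (fun w hw => (hk w (by linarith [hw.1]) (by linarith [hw.2])).continuousAt.continuousWithinAt)
      (fun w hw => hk w (by linarith [hw.1]) (by linarith [hw.2]))
    obtain ⟨b, hb, hb'⟩ := exists_hasDerivAt_eq_slope
      (fun w => g' w - g' s - m * (w - s)) (fun w => g'' w - m) hc.1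
      (fun w hw => (hk' w (by linarith [hw.1]) (by linarith [hw.2, hc.2])).continuousAt.continuousWithinAt)
      (fun w hw => hk' w (by linarith [hw.1]) (by linarith [hw.2, hc.2]))
    have hb3 := h3 b (by linarith [hb.1]) (by linarith [hb.2, hc.2])
    have p1 : 0 < c - s := by linarith [hc.1]
    have p2 : 0 < s + x - s := by linarith
    rw [eq_div_iff p1.ne'] at hb'
    rw [eq_div_iff p2.ne'] at hc'
    simp only [sub_self, mul_zero, sub_zero] at hb' hc'
    have q1 : g' c - g' s - m * (c - s) ≤ 0 := by nlinarith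
    nlinarith

lemma taylor_lo {g g' g'' : ℝ → ℝ} {l u m : ℝ} (h1 : ∀ s, l ≤ s → s ≤ u → HasDerivAt g (g' s) s)
    (h2 : ∀ s, l ≤ s → s ≤ u → HasDerivAt g' (g'' s) s) (h3 : ∀ s, l ≤ s → s ≤ u → m ≤ g'' s)
    {s x : ℝ} (hl : l ≤ s) (hu : s ≤ u) (hl' : l ≤ s + x) (hu' : s + x ≤ u) :
    g s + g' s * x + m / 2 * x ^ 2 ≤ g (s + x) := by
  have := taylor_up (g := fun w => -g w) (g' := fun w => -g' w) (g'' := fun w => -g'' w) (m := -m)
    (fun s a b => (h1 s a b).neg) (fun s a b => (h2 s a b).neg)
    (fun s a b => neg_le_neg (h3 s a b)) hl hu hl' hu'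
  linarith

/-! ### asymptotics -/

lemma tendsto_ns : Tendsto ns cofinite atTop := by
  rw [tendsto_atTop]
  intro b
  rw [eventually_cofinite]
  obtain ⟨N, hN⟩ := exists_nat_ge (|b| + 1)
  refine Set.Finite.subset (Set.Finite.prod (Set.finite_Icc (-(N : ℤ)) N)
    (Set.finite_Icc (-(N : ℤ)) N)) ?_
  intro z hz
  have hz : ns z < b := not_le.mp hz
  have hb : b ≤ |b| := le_abs_self b
  have hb0 : 0 ≤ |b| := abs_nonneg b
  have key : ∀ x : ℤ, (x : ℝ) ^ 2 ≤ ns z → x ∈ Set.Icc (-(N : ℤ)) N := by
    intro x hx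
    have h1 : (x : ℝ) ^ 2 ≤ (N : ℝ) ^ 2 := by nlinarith
    have h2 : |(x : ℝ)| ≤ N := abs_le_of_sq_le_sq h1 (by positivity)
    rw [abs_le] at h2
    constructor
    · have := h2.1; exact_mod_cast this
    · have := h2.2; exact_mod_cast this
  refine ⟨key z.1 ?_, key z.2 ?_⟩
  · unfold ns; nlinarith [sq_nonneg (z.2 : ℝ)]
  · unfold ns; nlinarith [sq_nonneg (z.1 : ℝ)]

lemma tendsto_R : Tendsto R cofinite atTop := by
  unfold R
  exact tendsto_atTop_add_const_left _ _ tendsto_ns

lemma tendsto_rho : Tendsto rho cofinite atTop := by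
  unfold rho
  exact (Real.tendsto_log_atTop.comp tendsto_R).atTop_div_const (by norm_num)

/-- from the cofinite filter to large `R` -/
lemma large {P : V → Prop} (h : ∀ᶠ z in cofinite, P z) : ∃ r : ℝ, 100 ≤ r ∧ ∀ z, r ≤ R z → P z := by
  rw [eventually_cofinite] at h
  obtain ⟨b, hb⟩ := (h.image R).bddAbove
  refine ⟨max 100 (b + 1), le_max_left _ _, fun z hz => ?_⟩
  by_contra hn
  have h1 : R z ≤ b := hb ⟨z, hn, rfl⟩
  have h2 : b + 1 ≤ R z := le_trans (le_max_right _ _) hz
  linarith

/-- the asymptotics at a neighbour -/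
lemma asym_shift {a : ℝ} {h : V → ℝ} (ha : Asym a h) (v : V) :
    Tendsto (fun z => h (z + v) * (R z / rho z ^ a)) cofinite (nhds 1) := by
  have hinj : Tendsto (fun z : V => z + v) cofinite cofinite :=
    (add_left_injective v).tendsto_cofinite
  have h1 : Tendsto (fun z => h (z + v) * ns (z + v) / (Real.log (ns (z + v)) / 2) ^ a)
      cofinite (nhds 1) := ha.comp hinj
  have hns : Tendsto (fun z : V => ns (z + v)) cofinite atTop := tendsto_ns.comp hinj
  -- `R z / ns (z + v) → 1`
  have hq : Tendsto (fun z : V => R z / ns (z + v)) cofinite (nhds 1) := by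
    have e1 : Tendsto (fun z : V => (ns z - ns (z + v)) / ns (z + v)) cofinite (nhds 0) := by
      have hv : ∀ z : V, |ns z - ns (z + v)| ≤ 2 * Real.sqrt (ns v) * Real.sqrt (ns (z + v)) + ns v := by
        intro z
        have e2 : ns z - ns (z + v) = -(2 * (((z + v).1 : ℝ) * v.1 + ((z + v).2 : ℝ) * v.2)) + ns v := by
          unfold ns; simp only [Prod.fst_add, Prod.snd_add]; push_cast; ring
        have e3 : |((z + v).1 : ℝ) * v.1 + ((z + v).2 : ℝ) * v.2| ≤
            Real.sqrt (ns v) * Real.sqrt (ns (z + v)) := by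
          rw [← Real.sqrt_mul (ns_nonneg v)]
          refine Real.abs_le_sqrt ?_
          unfold ns
          nlinarith [sq_nonneg (((z + v).1 : ℝ) * v.2 - ((z + v).2 : ℝ) * v.1)]
        rw [e2]
        have e4 := ns_nonneg v
        rw [abs_le] at e3 ⊢
        constructor <;> nlinarith [e3.1, e3.2]
      have hs : Tendsto (fun z : V => 2 * Real.sqrt (ns v) / Real.sqrt (ns (z + v)) +
          ns v / ns (z + v)) cofinite (nhds 0) := by
        have b1 : Tendsto (fun z : V => 2 * Real.sqrt (ns v) / Real.sqrt (ns (z + v))) cofinite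
            (nhds 0) := (Real.tendsto_sqrt_atTop.comp hns).const_div_atTop _
        have b2 : Tendsto (fun z : V => ns v / ns (z + v)) cofinite (nhds 0) :=
          hns.const_div_atTop _
        simpa using b1.add b2
      refine squeeze_zero_norm' ?_ hs
      filter_upwards [hns.eventually_gt_atTop 0] with z hz
      rw [Real.norm_eq_abs, abs_div, abs_of_pos hz]
      have hsp : 0 < Real.sqrt (ns (z + v)) := Real.sqrt_pos.mpr hz
      have hss : Real.sqrt (ns (z + v)) * Real.sqrt (ns (z + v)) = ns (z + v) :=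
        Real.mul_self_sqrt hz.le
      rw [div_le_iff₀ hz]
      have e5 : (2 * Real.sqrt (ns v) / Real.sqrt (ns (z + v)) + ns v / ns (z + v)) * ns (z + v) =
          2 * Real.sqrt (ns v) * Real.sqrt (ns (z + v)) + ns v := by
        rw [add_mul, div_mul_cancel₀ _ hz.ne']
        congr 1
        rw [div_mul_eq_mul_div, div_eq_iff hsp.ne', mul_assoc, mul_assoc, mul_assoc, hss]
      rw [e5]
      exact hv z
    have e6 : Tendsto (fun z : V => 100 / ns (z + v)) cofinite (nhds 0) := hns.const_div_atTop _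
    have e7 : Tendsto (fun z : V => 1 + ((ns z - ns (z + v)) / ns (z + v) + 100 / ns (z + v)))
        cofinite (nhds 1) := by simpa using (e1.add e6).const_add 1
    refine e7.congr' ?_
    filter_upwards [hns.eventually_gt_atTop 0] with z hz
    unfold R
    field_simp
    ring
  -- the logarithms
  have hl : Tendsto (fun z : V => (Real.log (ns (z + v)) / 2) / rho z) cofinite (nhds 1) := by
    have b1 : Tendsto (fun z : V => Real.log (R z / ns (z + v))) cofinite (nhds 0) := by
      have := (Real.continuousAt_log (one_ne_zero)).tendsto.comp hq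
      rw [Real.log_one] at this
      exact this
    have b2 : Tendsto (fun z : V => Real.log (R z / ns (z + v)) / (2 * rho z)) cofinite (nhds 0) :=
      b1.div_atTop (tendsto_rho.const_mul_atTop (by norm_num))
    have b3 : Tendsto (fun z : V => 1 - Real.log (R z / ns (z + v)) / (2 * rho z)) cofinite
        (nhds 1) := by simpa using b2.const_sub 1
    refine b3.congr' ?_
    filter_upwards [hns.eventually_gt_atTop 0, tendsto_rho.eventually_gt_atTop 0] with z hz hr
    rw [Real.log_div (R_pos z).ne' hz.ne']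
    have : Real.log (R z) = 2 * rho z := by unfold rho; ring
    rw [this]
    field_simp
    ring
  have hp : Tendsto (fun z : V => ((Real.log (ns (z + v)) / 2) / rho z) ^ a) cofinite (nhds 1) := by
    have := hl.rpow_const (p := a) (Or.inl one_ne_zero)
    simpa using this
  have h2 := (h1.mul hq).mul hp
  simp only [mul_one] at h2
  refine h2.congr' ?_
  filter_upwards [hns.eventually_gt_atTop 1, tendsto_rho.eventually_gt_atTop 0] with z hz hr
  have hlog : 0 < Real.log (ns (z + v)) / 2 := by
    have := Real.log_pos hz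
    linarith
  rw [Real.div_rpow hlog.le hr.le]
  have p1 : 0 < (Real.log (ns (z + v)) / 2) ^ a := Real.rpow_pos_of_pos hlog a
  have p2 : 0 < rho z ^ a := Real.rpow_pos_of_pos hr a
  have p3 : 0 < ns (z + v) := by linarith
  field_simp

/-- uniform version -/
lemma asym_nb {a : ℝ} {h : V → ℝ} (ha : Asym a h) {e : ℝ} (he : 0 < e) :
    ∃ r : ℝ, 100 ≤ r ∧ ∀ z, r ≤ R z → ∀ y, nb z y →
      (1 - e) * (rho z ^ a / R z) ≤ h y ∧ h y ≤ (1 + e) * (rho z ^ a / R z) := by
  have h1 : ∀ᶠ z in cofinite, ∀ p : Fin 4 × Fin 4,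
      |h (z + (stp p.1 + stp p.2)) * (R z / rho z ^ a) - 1| < e := by
    rw [eventually_all]
    intro p
    have := (Metric.tendsto_nhds.mp (asym_shift ha (stp p.1 + stp p.2))) e he
    filter_upwards [this] with z hz
    rwa [Real.dist_eq] at hz
  obtain ⟨r, hr, hr'⟩ := large (h1.and (tendsto_rho.eventually_gt_atTop 0))
  refine ⟨r, hr, fun z hz y hy => ?_⟩
  obtain ⟨e1, e2, rfl⟩ := hy
  obtain ⟨h2, h3⟩ := hr' z hz
  have h4 := abs_lt.mp (h2 (e1, e2))
  simp only [← add_assoc] at h4
  have hR := R_pos z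
  have hp : 0 < rho z ^ a := Real.rpow_pos_of_pos h3 a
  have hq : 0 < rho z ^ a / R z := div_pos hp hR
  have e3 : h (z + stp e1 + stp e2) =
      (h (z + stp e1 + stp e2) * (R z / rho z ^ a)) * (rho z ^ a / R z) := by
    field_simp
  constructor
  · rw [e3]
    exact mul_le_mul_of_nonneg_right (by linarith [h4.1]) hq.le
  · rw [e3]
    exact mul_le_mul_of_nonneg_right (by linarith [h4.2]) hq.le

/-- the correlation is bounded -/
lemma asym_bdd {a : ℝ} {h : V → ℝ} (ha : Asym a h) : ∃ H : ℝ, 0 < H ∧ ∀ z, |h z| ≤ H := by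
  have h0 : Tendsto (fun z => rho z ^ a / R z) cofinite (nhds 0) := by
    have h1 : Tendsto (fun x : ℝ => x ^ a * Real.exp (-2 * x)) atTop (nhds 0) :=
      tendsto_rpow_mul_exp_neg_mul_atTop_nhds_zero a 2 (by norm_num)
    refine (h1.comp tendsto_rho).congr ?_
    intro z
    simp only [Function.comp]
    have : Real.exp (-2 * rho z) = (R z)⁻¹ := by
      rw [show -2 * rho z = -Real.log (R z) by unfold rho; ring, Real.exp_neg,
        Real.exp_log (R_pos z)]
    rw [this, div_eq_mul_inv]
  have h1 : Tendsto (fun z => h (z + 0) * (R z / rho z ^ a) * (rho z ^ a / R z)) cofinite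
      (nhds 0) := by
    have := (asym_shift ha 0).mul h0
    simpa using this
  have h2 : Tendsto h cofinite (nhds 0) := by
    refine h1.congr' ?_
    filter_upwards [tendsto_rho.eventually_gt_atTop 0] with z hz
    have hp : 0 < rho z ^ a := Real.rpow_pos_of_pos hz a
    have hR := R_pos z
    rw [add_zero]
    field_simp
  have h3 : ∀ᶠ z in cofinite, |h z| ≤ 1 := by
    have := (Metric.tendsto_nhds.mp h2) 1 one_pos
    filter_upwards [this] with z hz
    rw [Real.dist_eq, sub_zero] at hz
    exact hz.le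
  rw [eventually_cofinite] at h3
  obtain ⟨b, hb⟩ := (h3.image (fun z => |h z|)).bddAbove
  refine ⟨max 1 b, lt_of_lt_of_le one_pos (le_max_left _ _), fun z => ?_⟩
  by_cases hz : |h z| ≤ 1
  · exact hz.trans (le_max_left _ _)
  · exact le_trans (hb ⟨z, hz, rfl⟩) (le_max_right _ _)

end Pool.Agent.H294.DP
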