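import Pool.Agent.H294.DP.Pro

/-! # Subsolutions from the profile -/

set_option autoImplicit false

open Filter Finset
open Pool.Agent.H964.DP (V ns stp avg Asym Prof Sub)

namespace Pool.Agent.H294.DP

/-- choice of the small constants -/
lemma sub_consts (a : ℝ) {ε w : ℝ} (hε : 0 < ε) (hw : 0 < w) :
    ∃ e6 e : ℝ, 0 < e6 ∧ e6 ≤ 1 / 2 ∧ e6 ≤ w ∧ 0 < e ∧ e ≤ 1 / 2 ∧
      (1 + e) ^ 3 * (1 + e6) ^ (a + 2) ≤ (1 - e) * (1 + ε) := by
  have h1 : Tendsto (fun x : ℝ => (1 + x) ^ (a + 2)) (nhds 0) (nhds 1) := by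
    have hc : ContinuousAt (fun x : ℝ => (1 + x) ^ (a + 2)) 0 :=
      ContinuousAt.rpow_const (by fun_prop) (Or.inl (by norm_num))
    have := hc.tendsto
    simpa using this
  have h2 : Tendsto (fun x : ℝ => (1 - x) * (1 + ε) - (1 + x) ^ 3 * (1 + ε / 2)) (nhds 0)
      (nhds (ε / 2)) := by
    have hc : Continuous (fun x : ℝ => (1 - x) * (1 + ε) - (1 + x) ^ 3 * (1 + ε / 2)) := by fun_prop
    have := hc.tendsto 0
    have e : (1 - 0) * (1 + ε) - (1 + 0) ^ 3 * (1 + ε / 2) = ε / 2 := by ring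
    rw [e] at this
    exact this
  have h3 : ∀ᶠ x : ℝ in nhdsWithin 0 (Set.Ioi 0), (1 + x) ^ (a + 2) < 1 + ε / 2 :=
    (h1.mono_left nhdsWithin_le_nhds).eventually_lt_const (by linarith)
  have h4 : ∀ᶠ x : ℝ in nhdsWithin 0 (Set.Ioi 0),
      0 < (1 - x) * (1 + ε) - (1 + x) ^ 3 * (1 + ε / 2) :=
    (h2.mono_left nhdsWithin_le_nhds).eventually_const_lt (by linarith)
  have h5 : ∀ᶠ x : ℝ in nhdsWithin 0 (Set.Ioi 0), x < 1 / 2 :=
    (tendsto_id.mono_left nhdsWithin_le_nhds).eventually_lt_const (by norm_num)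
  have h5' : ∀ᶠ x : ℝ in nhdsWithin 0 (Set.Ioi 0), x < w :=
    (tendsto_id.mono_left nhdsWithin_le_nhds).eventually_lt_const hw
  have h6 : ∀ᶠ x : ℝ in nhdsWithin 0 (Set.Ioi 0), 0 < x := self_mem_nhdsWithin
  obtain ⟨e6, ⟨⟨b1, b2⟩, b4⟩, b3⟩ := (((h3.and h5).and h5').and h6).exists
  obtain ⟨e, ⟨c1, c2⟩, c3⟩ := ((h4.and h5).and h6).exists
  refine ⟨e6, e, b3, b2.le, b4.le, c3, c2.le, ?_⟩
  have : (1 + e) ^ 3 * (1 + e6) ^ (a + 2) ≤ (1 + e) ^ 3 * (1 + ε / 2) :=
    mul_le_mul_of_nonneg_left b1.le (by positivity)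
  linarith

/-- the inequality far from the origin -/
lemma sub_arith {e θ kap b1 P Q F G : ℝ} (he : 0 < e) (hθ : θ = kap * ((1 - e) * P))
    (hθe : θ ≤ e) (hP : 0 ≤ P) (hQ : 0 ≤ Q) (hFQ : Q ≤ F) (hθ0 : 0 ≤ θ)
    (hb1 : 0 ≤ b1) (hc : (1 + e) ^ 3 * (b1 / 2) ≤ (1 - e) * kap)
    (hG : F - b1 / 2 * (1 + e) ^ 2 * P * Q ≤ G) : F ≤ (1 + θ) * G := by
  have h1 : (1 + θ) * (F - b1 / 2 * (1 + e) ^ 2 * P * Q) ≤ (1 + θ) * G :=
    mul_le_mul_of_nonneg_left hG (by linarith)
  refine le_trans ?_ h1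
  have h2 : θ * Q ≤ θ * F := mul_le_mul_of_nonneg_left hFQ hθ0
  have h3 : 0 ≤ b1 / 2 * (1 + e) ^ 2 * P * Q := by positivity
  have h4 : (1 + θ) * (b1 / 2 * (1 + e) ^ 2 * P * Q) ≤ (1 + e) * (b1 / 2 * (1 + e) ^ 2 * P * Q) :=
    mul_le_mul_of_nonneg_right (by linarith) h3
  have h5 : (1 + e) * (b1 / 2 * (1 + e) ^ 2 * P * Q) = ((1 + e) ^ 3 * (b1 / 2)) * (P * Q) := by ring
  have h6 : ((1 + e) ^ 3 * (b1 / 2)) * (P * Q) ≤ ((1 - e) * kap) * (P * Q) :=
    mul_le_mul_of_nonneg_right hc (by positivity)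
  have h7 : ((1 - e) * kap) * (P * Q) = θ * Q := by rw [hθ]; ring
  have h8 : (1 + θ) * (F - b1 / 2 * (1 + e) ^ 2 * P * Q) =
      F + θ * F - (1 + θ) * (b1 / 2 * (1 + e) ^ 2 * P * Q) := by ring
  linarith

section
variable {a μ : ℝ} {Ψ Ψ' : ℝ → ℝ}

/-- the profile is negative after its zero -/
lemma prof_neg (hP : Prof a μ Ψ Ψ') : ∃ w : ℝ, 0 < w ∧ ∀ y, 1 ≤ y → y ≤ 1 + w → y < 2 →
    Ψ y ≤ -((y - 1) / 2) := by
  -- `Ψ' 1 ≤ -1`
  obtain ⟨c, hc, hc'⟩ := exists_hasDerivAt_eq_slope Ψ Ψ' (show (0 : ℝ) < 1 by norm_num)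
    (hP.cont.mono (Set.Icc_subset_Icc le_rfl (by norm_num)))
    (fun x hx => hP.der x hx.1 (by linarith [hx.2]))
  rw [hP.one, hP.zero] at hc'
  norm_num at hc'
  have hanti : AntitoneOn Ψ' (Set.Icc c 1) := by
    refine antitoneOn_of_deriv_nonpos (convex_Icc c 1) ?_ ?_ ?_
    · intro x hx
      exact (hP.der2 x (by linarith [hx.1, hc.1]) (by linarith [hx.2])).continuousAt.continuousWithinAt
    · intro x hx
      rw [interior_Icc] at hx
      exact (hP.der2 x (by linarith [hx.1, hc.1])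
        (by linarith [hx.2])).differentiableAt.differentiableWithinAt
    · intro x hx
      rw [interior_Icc] at hx
      have hx0 : 0 < x := by linarith [hx.1, hc.1]
      rw [(hP.der2 x hx0 (by linarith [hx.2])).deriv]
      have h1 := hP.pos x hx0.le hx.2
      have h2 : 0 < x ^ a := Real.rpow_pos_of_pos hx0 a
      have h3 := hP.mu_pos
      have : 0 < μ * x ^ a * Ψ x := by positivity
      linarith
  have h1 : Ψ' 1 ≤ -1 := by
    rw [← hc']
    exact hanti ⟨le_rfl, hc.2.le⟩ ⟨hc.2.le, le_rfl⟩ hc.2.le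
  have h2 : ContinuousAt Ψ' 1 := (hP.der2 1 one_pos (by norm_num)).continuousAt
  rw [Metric.continuousAt_iff] at h2
  obtain ⟨w, hw, h3⟩ := h2 (1 / 2) (by norm_num)
  refine ⟨w / 2, by positivity, ?_⟩
  intro y hy1 hy2 hy3
  rcases hy1.eq_or_lt with rfl | hy1
  · rw [hP.one]; norm_num
  obtain ⟨b, hb, hb'⟩ := exists_hasDerivAt_eq_slope Ψ Ψ' hy1
    (hP.cont.mono (Set.Icc_subset_Icc (by norm_num) hy3.le))
    (fun x hx => hP.der x (by linarith [hx.1]) (by linarith [hx.2]))
  have h4 : dist b 1 < w := by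
    rw [Real.dist_eq, abs_of_pos (by linarith [hb.1])]
    linarith [hb.2]
  have h5 := h3 h4
  rw [Real.dist_eq, abs_lt] at h5
  have h6 : Ψ' b ≤ -(1 / 2) := by linarith [h5.2]
  rw [eq_div_iff (by linarith), hP.one] at hb'
  nlinarith

end

/-- the exponential correction -/
lemma exp_lo (z : V) : Real.exp (-rho z / 2) * (1 - d1 z / 2 + d2 z / 10) ≤
    avg (avg (fun y => Real.exp (-rho y / 2))) z := by
  have hd : ∀ s : ℝ, HasDerivAt (fun s : ℝ => -s / 2) (-1 / 2) s := fun s =>
    ((hasDerivAt_id s).neg).div_const 2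
  have h := E_lo (g := fun s => Real.exp (-s / 2)) (g' := fun s => -(Real.exp (-s / 2) / 2))
    (g'' := fun s => Real.exp (-s / 2) / 4) (z := z) (δ := 1 / 4)
    (m := Real.exp (-rho z / 2) / 5) (fun y hy => drho_le' hy) ?_ ?_ ?_
  · refine le_trans (le_of_eq ?_) h
    ring
  · intro s _ _
    have := (hd s).exp
    have e : Real.exp (-s / 2) * (-1 / 2) = -(Real.exp (-s / 2) / 2) := by ring
    rw [e] at this
    exact this
  · intro s _ _
    have := (((hd s).exp).div_const 2).neg
    have e : -(Real.exp (-s / 2) * (-1 / 2) / 2) = Real.exp (-s / 2) / 4 := by ring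
    rw [e] at this
    exact this
  · intro s _ hs
    have h1 : Real.exp (-rho z / 2) * Real.exp (-(1 / 8)) ≤ Real.exp (-s / 2) := by
      rw [← Real.exp_add]
      exact Real.exp_le_exp.mpr (by linarith)
    have h2 : 7 / 8 ≤ Real.exp (-(1 / 8)) := by
      have := Real.add_one_le_exp (-(1 / 8) : ℝ)
      linarith
    have h3 := Real.exp_pos (-rho z / 2)
    nlinarith

lemma R_exp (z : V) : R z = Real.exp (2 * rho z) := by
  unfold rho
  rw [show 2 * (Real.log (R z) / 2) = Real.log (R z) by ring, Real.exp_log (R_pos z)]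

lemma sqrtR_exp (z : V) : Real.sqrt (R z) = Real.exp (rho z) := by
  rw [R_exp, show Real.exp (2 * rho z) = Real.exp (rho z) ^ 2 by
    rw [← Real.exp_nat_mul]; norm_num, Real.sqrt_sq (Real.exp_pos _).le]

/-- the errors are dominated by the exponential correction -/
lemma far_err (a c1 c2 : ℝ) : ∀ᶠ z in cofinite, c1 * (rho z ^ (a + 1) / R z) +
    c2 * (rho z ^ a / Real.sqrt (R z)) ≤ Real.exp (-rho z / 2) / 40 := by
  have h1 : Tendsto (fun x : ℝ => x ^ (a + 1) * Real.exp (-(3 / 2) * x)) atTop (nhds 0) :=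
    tendsto_rpow_mul_exp_neg_mul_atTop_nhds_zero (a + 1) (3 / 2) (by norm_num)
  have h2 : Tendsto (fun x : ℝ => x ^ a * Real.exp (-(1 / 2) * x)) atTop (nhds 0) :=
    tendsto_rpow_mul_exp_neg_mul_atTop_nhds_zero a (1 / 2) (by norm_num)
  have h3 : Tendsto (fun x : ℝ => c1 * (x ^ (a + 1) * Real.exp (-(3 / 2) * x)) +
      c2 * (x ^ a * Real.exp (-(1 / 2) * x))) atTop (nhds 0) := by
    have := (h1.const_mul c1).add (h2.const_mul c2)
    simpa using this
  have h4 := (h3.comp tendsto_rho).eventually_le_const (show (0 : ℝ) < 1 / 40 by norm_num)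
  filter_upwards [h4] with z hz
  simp only [Function.comp] at hz
  rw [sqrtR_exp, R_exp]
  have hp := Real.exp_pos (-rho z / 2)
  have e1 : c1 * (rho z ^ (a + 1) / Real.exp (2 * rho z)) + c2 * (rho z ^ a / Real.exp (rho z)) =
      (c1 * (rho z ^ (a + 1) * Real.exp (-(3 / 2) * rho z)) +
        c2 * (rho z ^ a * Real.exp (-(1 / 2) * rho z))) * Real.exp (-rho z / 2) := by
    rw [div_eq_mul_inv, div_eq_mul_inv, ← Real.exp_neg, ← Real.exp_neg]
    rw [show -(2 * rho z) = -(3 / 2) * rho z + -rho z / 2 by ring,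
      show Real.exp (-rho z) = Real.exp (-(1 / 2) * rho z + -rho z / 2) by congr 1; ring]
    rw [Real.exp_add, Real.exp_add]
    ring
  rw [e1]
  calc _ ≤ 1 / 40 * Real.exp (-rho z / 2) := mul_le_mul_of_nonneg_right hz hp.le
    _ = _ := by ring

lemma bdd_ratio (a : ℝ) : ∀ᶠ z in cofinite, rho z ^ a / R z ≤ 1 := by
  have h1 : Tendsto (fun x : ℝ => x ^ a * Real.exp (-2 * x)) atTop (nhds 0) :=
    tendsto_rpow_mul_exp_neg_mul_atTop_nhds_zero a 2 (by norm_num)
  have h4 := (h1.comp tendsto_rho).eventually_le_const (show (0 : ℝ) < 1 by norm_num)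
  filter_upwards [h4] with z hz
  simp only [Function.comp] at hz
  rw [R_exp, div_eq_mul_inv, ← Real.exp_neg]
  rw [show -(2 * rho z) = -2 * rho z by ring]
  exact hz

set_option maxHeartbeats 4000000 in
theorem t_HSUB : Pool.Agent.H964.DP.S_HSUB := by
  intro a μ Ψ Ψ' ha hP h hh0 hA ε hε
  have hμ := hP.mu_pos
  obtain ⟨w, hw, hw'⟩ := prof_neg hP
  obtain ⟨e6, e, he6, he61, he6w, he, he2, hc1⟩ := sub_consts a hε hw
  obtain ⟨δ, hδ, hδ2, hδ'⟩ := rpow_near a he
  obtain ⟨r1, hr1, hr1'⟩ := asym_nb hA he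
  obtain ⟨Λ, hΛ, hΛ'⟩ := prof_lip ha hP
  obtain ⟨C, hC, hC'⟩ : ∃ C : ℝ, 0 < C ∧ ∀ y, 0 < y → y < 2 → |Ψ' y| ≤ C * y ^ (a + 1) := by
    obtain ⟨C, hC⟩ := hP.bd
    refine ⟨|C| + 1, by positivity, fun y h1 h2 => (hC y h1 h2).trans ?_⟩
    exact mul_le_mul_of_nonneg_right (by linarith [le_abs_self C]) (Real.rpow_nonneg h1.le _)
  have hΨb : ∀ y, 0 < y → y < 2 → |Ψ y| ≤ Λ := by
    intro y h1 h2
    have h3 := hΛ' y 1 h1 h2 one_pos (by norm_num)
    rw [hP.one, sub_zero] at h3
    refine h3.trans ?_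
    have : |y - 1| ≤ 1 := by rw [abs_le]; constructor <;> linarith
    nlinarith
  obtain ⟨κ, hκ⟩ : ∃ κ, κ = μ * (1 + e6) ^ (a + 2) := ⟨_, rfl⟩
  have hκ0 : 0 < κ := by rw [hκ]; exact mul_pos hμ (Real.rpow_pos_of_pos (by linarith) _)
  obtain ⟨r2, hr2, hr2'⟩ := large (far_err a (105 * (C / μ) * κ) (18 * κ * Λ))
  obtain ⟨r3, hr3, hr3'⟩ := large (bdd_ratio a)
  -- the radius
  obtain ⟨δ1, hδ1⟩ : ∃ δ1, δ1 = min δ (1 / 4) := ⟨_, rfl⟩
  have hδ1p : 0 < δ1 := by rw [hδ1]; positivity
  obtain ⟨r0, hr0⟩ : ∃ r0, r0 = max (max (max r1 r2) (max r3 2100))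
      (max ((8 / δ1) ^ 2) ((40 / e) ^ 2)) := ⟨_, rfl⟩
  have hr01 : r1 ≤ r0 := by
    rw [hr0]; exact ((le_max_left _ _).trans (le_max_left _ _)).trans (le_max_left _ _)
  have hr0b : r2 ≤ r0 := by
    rw [hr0]; exact ((le_max_right _ _).trans (le_max_left _ _)).trans (le_max_left _ _)
  have hr0c : r3 ≤ r0 := by
    rw [hr0]; exact ((le_max_left _ _).trans (le_max_right _ _)).trans (le_max_left _ _)
  have hr0d : 2100 ≤ r0 := by
    rw [hr0]; exact ((le_max_right _ _).trans (le_max_right _ _)).trans (le_max_left _ _)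
  have hr02 : (8 / δ1) ^ 2 ≤ r0 := by rw [hr0]; exact (le_max_left _ _).trans (le_max_right _ _)
  have hr03 : (40 / e) ^ 2 ≤ r0 := by rw [hr0]; exact (le_max_right _ _).trans (le_max_right _ _)
  have hr0p : 0 < r0 := by linarith
  -- constants
  obtain ⟨T, hT⟩ : ∃ T, T = Real.log r0 / 2 + 1 := ⟨_, rfl⟩
  have hT1 : 1 ≤ T := by
    rw [hT]
    have : 0 ≤ Real.log r0 := Real.log_nonneg (by linarith)
    linarith
  obtain ⟨A, hAd⟩ : ∃ A, A = 1 / 2 + (C / μ) * κ * T ^ (a + 1) + κ * T ^ |a| * Λ * r0 ^ 2 / 2560 :=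
    ⟨_, rfl⟩
  have hA0 : 0 < A := by
    rw [hAd]
    have h1 : 0 ≤ T ^ (a + 1) := Real.rpow_nonneg (by linarith) _
    have h2 : 0 ≤ T ^ |a| := Real.rpow_nonneg (by linarith) _
    positivity
  -- the value near zero
  obtain ⟨η, hη, hη'⟩ : ∃ η : ℝ, 0 < η ∧ ∀ y, 0 ≤ y → y < η → y ≤ 2 → 1 / 2 ≤ Ψ y := by
    have h1 := hP.cont 0 ⟨le_rfl, by norm_num⟩
    rw [Metric.continuousWithinAt_iff] at h1
    obtain ⟨η, hη, h2⟩ := h1 (1 / 2) (by norm_num)
    refine ⟨η, hη, fun y hy1 hy2 hy3 => ?_⟩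
    have h3 := h2 (x := y) ⟨hy1, hy3⟩ (by rw [Real.dist_eq, sub_zero, abs_of_nonneg hy1]; exact hy2)
    rw [Real.dist_eq, hP.zero, abs_lt] at h3
    linarith [h3.1]
  -- large `L`
  have hT1' : Tendsto (fun L : ℝ => L ^ (-(a + 2))) atTop (nhds 0) :=
    tendsto_rpow_neg_atTop (by linarith)
  have hT2' : Tendsto (fun L : ℝ => L ^ (-(a + 1))) atTop (nhds 0) :=
    tendsto_rpow_neg_atTop (by linarith)
  have q1 : ∀ᶠ L : ℝ in atTop, A * L ^ (-(a + 1)) + L ^ (-(a + 2)) ≤ e6 / 8 := by
    have := (hT2'.const_mul A).add hT1'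
    rw [mul_zero, zero_add] at this
    exact this.eventually_le_const (by positivity)
  have q2 : ∀ᶠ L : ℝ in atTop, (1 + ε) * μ * L ^ (-(a + 2)) ≤ e := by
    have := hT1'.const_mul ((1 + ε) * μ)
    rw [mul_zero] at this
    exact this.eventually_le_const (by positivity)
  have q3 : ∀ᶠ L : ℝ in atTop, 5 / η ≤ L := eventually_ge_atTop _
  have q4 : ∀ᶠ L : ℝ in atTop, 9 / e6 ≤ L := eventually_ge_atTop _
  have q5 : ∀ᶠ L : ℝ in atTop, 10 ≤ L := eventually_ge_atTop _
  obtain ⟨L₀, hL₀⟩ := ((((q1.and q2).and q3).and q4).and q5).exists_forall_of_atTop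
  refine ⟨max L₀ 1, le_max_right _ _, ?_⟩
  intro L hL
  obtain ⟨⟨⟨⟨p1, p2⟩, p3⟩, p4⟩, p5⟩ := hL₀ L ((le_max_left _ _).trans hL)
  clear hL hL₀ q1 q2 q3 q4 q5 hT1' hT2'
  have hL0 : 0 < L := by linarith
  -- the scales
  obtain ⟨M, hM⟩ : ∃ M, M = L / (1 + e6) := ⟨_, rfl⟩
  have hM0 : 0 < M := by rw [hM]; positivity
  have hML : L = (1 + e6) * M := by rw [hM]; field_simp
  have hM1 : 1 ≤ M := by nlinarith
  obtain ⟨b2, hb2⟩ : ∃ b2, b2 = L ^ (-(a + 2)) := ⟨_, rfl⟩
  have hb2p : 0 < b2 := by rw [hb2]; exact Real.rpow_pos_of_pos hL0 _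
  have hb2' : b2 = 1 / L ^ (a + 2) := by rw [hb2, Real.rpow_neg hL0.le, one_div]
  obtain ⟨b1, hb1⟩ : ∃ b1, b1 = μ / M ^ (a + 2) := ⟨_, rfl⟩
  have hb1κ : b1 = κ * b2 := by
    rw [hb1, hκ, hb2', hML, Real.mul_rpow (by linarith) hM0.le]
    have h1 : 0 < (1 + e6) ^ (a + 2) := Real.rpow_pos_of_pos (by linarith) _
    have h2 : 0 < M ^ (a + 2) := Real.rpow_pos_of_pos hM0 _
    field_simp
  have hb1p : 0 < b1 := by rw [hb1κ]; positivity
  obtain ⟨kap, hkap⟩ : ∃ kap, kap = (1 + ε) * μ / (2 * L ^ (a + 2)) := ⟨_, rfl⟩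
  have hkap1 : kap = (1 + ε) * μ * b2 / 2 := by
    rw [hkap, hb2']
    have hp : 0 < L ^ (a + 2) := Real.rpow_pos_of_pos hL0 _
    field_simp
  have hkap0 : 0 < kap := by rw [hkap1]; positivity
  have hkape : kap ≤ e := by
    rw [hkap1]
    rw [← hb2] at p2
    have : 0 ≤ (1 + ε) * μ * b2 := by positivity
    linarith
  have hkc : (1 + e) ^ 3 * (b1 / 2) ≤ (1 - e) * kap := by
    rw [hb1κ, hκ, hkap1]
    have h1 : (1 + e) ^ 3 * (μ * (1 + e6) ^ (a + 2) * b2 / 2) =
        ((1 + e) ^ 3 * (1 + e6) ^ (a + 2)) * (μ * b2 / 2) := by ring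
    have h2 : (1 - e) * ((1 + ε) * μ * b2 / 2) = ((1 - e) * (1 + ε)) * (μ * b2 / 2) := by ring
    rw [h1, h2]
    exact mul_le_mul_of_nonneg_right hc1 (by positivity)
  rw [← hb2] at p1
  -- the function
  let f : V → ℝ := fun z => Ψ (rho z / M) + A * b2 * rho z + b2 * Real.exp (-rho z / 2)
  have hfdef : ∀ z, f z = Ψ (rho z / M) + A * b2 * rho z + b2 * Real.exp (-rho z / 2) :=
    fun _ => rfl
  have hcor : ∀ z, rho z ≤ L → A * b2 * rho z + b2 * Real.exp (-rho z / 2) ≤ e6 / 8 := by
    intro z hz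
    have h1 : A * b2 * rho z ≤ A * b2 * L := mul_le_mul_of_nonneg_left hz (by positivity)
    have h2 : L ^ (-(a + 1)) = b2 * L := by
      rw [hb2, ← Real.rpow_add_one hL0.ne']
      congr 1; ring
    rw [h2] at p1
    have h3 : Real.exp (-rho z / 2) ≤ 1 := by
      rw [Real.exp_le_one_iff]
      linarith [rho_ge z]
    have h4 : b2 * Real.exp (-rho z / 2) ≤ b2 := by
      calc b2 * Real.exp (-rho z / 2) ≤ b2 * 1 := mul_le_mul_of_nonneg_left h3 hb2p.le
        _ = b2 := mul_one _
    nlinarith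
  have hcor0 : ∀ z, 0 ≤ A * b2 * rho z + b2 * Real.exp (-rho z / 2) := by
    intro z
    have := rho_ge z
    have := Real.exp_pos (-rho z / 2)
    positivity
  have hr0' : ∀ z, 0 < rho z / M := fun z => div_pos (by linarith [rho_ge z]) hM0
  -- negative near the boundary
  have hneg : ∀ z, L - 3 ≤ rho z → rho z ≤ L → f z ≤ 0 := by
    intro z h1 h2
    have h3 : 1 + e6 / 2 ≤ rho z / M := by
      rw [le_div_iff₀ hM0]
      have h4 : 9 ≤ L * e6 := by rwa [div_le_iff₀ he6] at p4
      nlinarith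
    have h5 : rho z / M ≤ 1 + e6 := by
      rw [div_le_iff₀ hM0, ← hML]; exact h2
    have h6 := hw' (rho z / M) (by linarith) (by linarith) (by linarith)
    have h7 := hcor z h2
    rw [hfdef]
    linarith
  -- `f ≤ 2`
  have hf2 : ∀ z, rho z ≤ L → f z ≤ 2 := by
    intro z h2
    have h5 : rho z / M ≤ 1 + e6 := by
      rw [div_le_iff₀ hM0, ← hML]; exact h2
    have h7 := hcor z h2
    have h8 : Ψ (rho z / M) ≤ 1 := by
      rcases le_or_gt (rho z / M) 1 with h9 | h9
      · have := prof_anti hP le_rfl (hr0' z).le h9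
        rwa [hP.zero] at this
      · have := hw' (rho z / M) h9.le (by linarith) (by linarith)
        linarith
    rw [hfdef]
    linarith
  classical
  obtain ⟨φ, hφ⟩ : ∃ φ : V → ℝ, φ = fun z => if rho z ≤ L - 1 then max (f z) 0 / 2 else 0 := ⟨_, rfl⟩
  have hφ0 : ∀ z, 0 ≤ φ z := by
    intro z
    rw [hφ]
    beta_reduce
    split_ifs
    · have := le_max_right (f z) 0
      linarith
    · exact le_rfl
  refine ⟨φ, ?_, ?_, ?_, ?_⟩
  · intro z
    refine ⟨hφ0 z, ?_⟩
    rw [hφ]
    beta_reduce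
    split_ifs with hz
    · have h1 := hf2 z (by linarith)
      have h2 : max (f z) 0 ≤ 2 := max_le h1 (by norm_num)
      linarith
    · exact zero_le_one
  · intro z hz
    have h1 : rho z ≤ L - 1 := by
      by_contra hn
      apply hz
      rw [hφ]
      beta_reduce
      rw [if_neg hn]
    have h2 : R z ≤ Real.exp (2 * L) := by
      rw [R_exp]
      exact Real.exp_le_exp.mpr (by linarith)
    have h3 : ns z ≤ R z := by unfold R; linarith
    exact h3.trans h2
  · have h1 : rho (0 : V) ≤ 3 := by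
      have h2 : R (0 : V) = 100 := by unfold R ns; simp
      unfold rho
      rw [h2, div_le_iff₀ (by norm_num), Real.log_le_iff_le_exp (by norm_num)]
      have h3 : Real.exp (3 * 2) = Real.exp 1 ^ 6 := by rw [← Real.exp_nat_mul]; norm_num
      rw [h3]
      have h4 := Real.exp_one_gt_d9
      have h5 : (2.7 : ℝ) ^ 6 ≤ Real.exp 1 ^ 6 := pow_le_pow_left₀ (by norm_num) (by linarith) 6
      refine le_trans ?_ h5
      norm_num
    have h2 : 1 / 2 ≤ Ψ (rho (0 : V) / M) := by
      refine hη' _ (hr0' 0).le ?_ ?_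
      · rw [div_lt_iff₀ hM0]
        have h3 : 5 ≤ L * η := by rwa [div_le_iff₀ hη] at p3
        rw [hML] at h3
        nlinarith [mul_pos hM0 hη]
      · rw [div_le_iff₀ hM0]
        nlinarith
    have h3 : 1 / 2 ≤ f 0 := by
      rw [hfdef]
      have := hcor0 0
      linarith
    rw [hφ]
    beta_reduce
    rw [if_pos (by linarith)]
    have := le_max_left (f 0) 0
    linarith
  · intro z
    rw [← hkap]
    have hnn : 0 ≤ avg (avg (fun y => (1 + kap * h y) * φ y)) z := by
      have h1 := avg2_mono (g := fun _ => 0) (k := fun y => (1 + kap * h y) * φ y) (z := z)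
        (fun y _ => mul_nonneg (by have := hh0 y; positivity) (hφ0 y))
      rwa [avg2_const] at h1
    by_cases hz1 : rho z ≤ L - 1
    swap
    · rw [hφ]
      beta_reduce
      rw [if_neg hz1]
      rw [hφ] at hnn
      exact hnn
    by_cases hz2 : f z ≤ 0
    · have h1 : φ z = 0 := by
        rw [hφ]
        beta_reduce
        rw [if_pos hz1, max_eq_right hz2, zero_div]
      rw [h1]
      exact hnn
    push Not at hz2
    have hz3 : rho z < L - 3 := by
      by_contra hn
      push Not at hn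
      linarith [hneg z hn (by linarith)]
    have hφz : φ z = f z / 2 := by
      rw [hφ]
      beta_reduce
      rw [if_pos hz1, max_eq_left hz2.le]
    have hφy : ∀ y, nb z y → f y / 2 ≤ φ y := by
      intro y hy
      have h1 := (abs_le.mp (drho_le' hy)).2
      rw [hφ]
      beta_reduce
      rw [if_pos (by linarith)]
      have := le_max_left (f y) 0
      linarith
    rw [hφz]
    have hρ := rho_ge z
    have hRp := R_pos z
    have hd1 := d1_pos z
    have hd20 := d2_nonneg z
    -- the interval of `ρ`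
    have hsM : ∀ s, rho z - 1 / 4 ≤ s → s ≤ rho z + 1 / 4 → 0 < s ∧ s / M < 2 := by
      intro s h1 h2
      refine ⟨by linarith, ?_⟩
      rw [div_lt_iff₀ hM0]
      nlinarith
    have hgen : ∀ m δ' : ℝ, δ' ≤ 1 / 4 → (∀ y, nb z y → |rho y - rho z| ≤ δ') →
        (∀ s, rho z - δ' ≤ s → s ≤ rho z + δ' →
        m ≤ -(b1 * (s ^ a * Ψ (s / M)))) →
        Ψ (rho z / M) + Ψ' (rho z / M) / M * d1 z + m / 2 * d2 z ≤
          avg (avg (fun y => Ψ (rho y / M))) z := by
      intro m δ' hδ1' hδ2' hm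
      refine E_lo (g := fun s => Ψ (s / M)) (g' := fun s => Ψ' (s / M) / M)
        (g'' := fun s => -(b1 * (s ^ a * Ψ (s / M)))) (z := z) (δ := δ') (m := m)
        hδ2' ?_ ?_ hm
      · intro s hs1 hs2
        obtain ⟨h3, h4⟩ := hsM s (by linarith) (by linarith)
        exact (prof_der hP hM0 h3 (by rw [div_lt_iff₀ hM0] at h4; exact h4)).1
      · intro s hs1 hs2
        obtain ⟨h3, h4⟩ := hsM s (by linarith) (by linarith)
        rw [hb1]
        exact (prof_der hP hM0 h3 (by rw [div_lt_iff₀ hM0] at h4; exact h4)).2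
    have hf_avg : avg (avg f) z = avg (avg (fun y => Ψ (rho y / M))) z + A * b2 * (rho z + d1 z) +
        b2 * avg (avg (fun y => Real.exp (-rho y / 2))) z := by
      have h1 := avg2_add (fun y => Ψ (rho y / M) + (A * b2) * rho y)
        (fun y => b2 * Real.exp (-rho y / 2)) z
      rw [avg2_add (fun y => Ψ (rho y / M)) (fun y => (A * b2) * rho y), avg2_mul, avg2_mul,
        avg_rho] at h1
      exact h1
    have hEx := exp_lo z
    -- the first order term
    have hψ1 : -((C / μ) * b1 * rho z ^ (a + 1)) ≤ Ψ' (rho z / M) / M := by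
      obtain ⟨h3, h4⟩ := hsM (rho z) (by linarith) (by linarith)
      have h5 := hC' (rho z / M) (hr0' z) h4
      have h6 : C * (rho z / M) ^ (a + 1) / M = (C / μ) * b1 * rho z ^ (a + 1) := by
        rw [hb1, Real.div_rpow (by linarith) hM0.le]
        have h7 : M ^ (a + 2) = M ^ (a + 1) * M := by
          rw [← Real.rpow_add_one hM0.ne']; congr 1; ring
        have h8 : 0 < M ^ (a + 1) := Real.rpow_pos_of_pos hM0 _
        rw [h7]
        field_simp
      rw [← h6, ← neg_div]
      refine div_le_div_of_nonneg_right ?_ hM0.le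
      linarith [(abs_le.mp h5).1]
    rcases le_or_gt r0 (R z) with hR | hR
    · -- far from the origin
      have hsp : 0 < Real.sqrt (R z) := Real.sqrt_pos.mpr hRp
      have hs8 : 8 / Real.sqrt (R z) ≤ δ1 := by
        have h1 : 8 / δ1 ≤ Real.sqrt (R z) := by
          rw [show 8 / δ1 = Real.sqrt ((8 / δ1) ^ 2) by rw [Real.sqrt_sq (by positivity)]]
          exact Real.sqrt_le_sqrt (hr02.trans hR)
        rw [div_le_iff₀ hδ1p] at h1
        rw [div_le_iff₀ hsp]
        linarith only [h1]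
      have hs40 : 40 / Real.sqrt (R z) ≤ e := by
        have h1 : 40 / e ≤ Real.sqrt (R z) := by
          rw [show 40 / e = Real.sqrt ((40 / e) ^ 2) by rw [Real.sqrt_sq (by positivity)]]
          exact Real.sqrt_le_sqrt (hr03.trans hR)
        rw [div_le_iff₀ he] at h1
        rw [div_le_iff₀ hsp]
        linarith only [h1]
      have hd2u : d2 z ≤ (1 + e) / R z := by
        have h1 := (abs_le.mp (d2_err z)).2
        have h2 : 40 / Real.sqrt (R z) / R z ≤ e / R z := div_le_div_of_nonneg_right hs40 hRp.le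
        rw [add_div]
        linarith only [h1, h2]
      have hd2l : (1 / 2) / R z ≤ d2 z := by
        have h1 := (abs_le.mp (d2_err z)).1
        have h2 : 40 / Real.sqrt (R z) / R z ≤ (1 / 2) / R z :=
          div_le_div_of_nonneg_right (hs40.trans he2) hRp.le
        have h3 : 1 / R z = (1 / 2) / R z + (1 / 2) / R z := by ring
        linarith only [h1, h2, h3]
      have hρa : 0 < rho z ^ a := Real.rpow_pos_of_pos (by linarith only [hρ]) a
      obtain ⟨Q, hQ⟩ : ∃ Q, Q = max (Ψ (rho z / M)) 0 := ⟨_, rfl⟩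
      have hQ0 : 0 ≤ Q := by rw [hQ]; exact le_max_right _ _
      have hQ1 : Ψ (rho z / M) ≤ Q := by rw [hQ]; exact le_max_left _ _
      obtain ⟨D, hD⟩ : ∃ D, D = 8 * Λ / (M * Real.sqrt (R z)) := ⟨_, rfl⟩
      have hD0 : 0 ≤ D := by rw [hD]; positivity
      have hδ1a : δ1 ≤ δ := by rw [hδ1]; exact min_le_left _ _
      have hδ1b : δ1 ≤ 1 / 4 := by rw [hδ1]; exact min_le_right _ _
      have h2nd := hgen (-(b1 * ((1 + e) * rho z ^ a * (Q + D)))) (8 / Real.sqrt (R z))
        (hs8.trans hδ1b) (fun y hy => drho_le hy) (by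
          intro s hs1 hs2
          obtain ⟨h3, h4⟩ := hsM s (by linarith only [hs1, hs8, hδ1b])
            (by linarith only [hs2, hs8, hδ1b])
          have hab : |s - rho z| ≤ 8 / Real.sqrt (R z) := by
            rw [abs_le]; constructor
            · linarith only [hs1]
            · linarith only [hs2]
          have h1 := (rpow_near' a hδ' (s := s) (t := rho z) (by linarith only [hρ])
            (hab.trans (hs8.trans hδ1a)) h3).2
          have h5 := hΛ' (s / M) (rho z / M) (div_pos h3 hM0) h4 (hr0' z)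
            (hsM (rho z) (by linarith only) (by linarith only)).2
          have h6 : Λ * |s / M - rho z / M| ≤ D := by
            rw [← sub_div, abs_div, abs_of_pos hM0, hD]
            have h7 : |s - rho z| / M ≤ 8 / Real.sqrt (R z) / M :=
              div_le_div_of_nonneg_right hab hM0.le
            calc Λ * (|s - rho z| / M) ≤ Λ * (8 / Real.sqrt (R z) / M) :=
                  mul_le_mul_of_nonneg_left h7 hΛ.le
              _ = 8 * Λ / (M * Real.sqrt (R z)) := by field_simp
          have h8 : Ψ (s / M) ≤ Q + D := by linarith only [(abs_le.mp h5).2, h6, hQ1]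
          have h9 : 0 < s ^ a := Real.rpow_pos_of_pos h3 a
          have h10 : s ^ a * Ψ (s / M) ≤ (1 + e) * rho z ^ a * (Q + D) := by
            calc s ^ a * Ψ (s / M) ≤ s ^ a * (Q + D) := mul_le_mul_of_nonneg_left h8 h9.le
              _ ≤ _ := mul_le_mul_of_nonneg_right h1 (by linarith only [hQ0, hD0])
          have h11 := mul_le_mul_of_nonneg_left h10 hb1p.le
          exact neg_le_neg h11)
      -- the error terms
      have herr := hr2' z (hr0b.trans hR)
      have hExf : Real.exp (-rho z / 2) + Real.exp (-rho z / 2) / (40 * R z) ≤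
          avg (avg (fun y => Real.exp (-rho y / 2))) z := by
        refine le_trans ?_ hEx
        have h1 := d1_le z
        have hp := Real.exp_pos (-rho z / 2)
        have h2 : 1 / (40 * R z) ≤ -(d1 z / 2) + d2 z / 10 := by
          have h3 : 105 / R z ^ 2 ≤ (1 / 20) / R z := by
            have h31 : 2100 ≤ R z := hr0d.trans hR
            rw [div_le_div_iff₀ (by positivity) hRp]
            nlinarith only [h31]
          have h4 : 1 / (40 * R z) = (1 / 20) / R z / 2 := by field_simp; norm_num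
          have h5 : (1 / 2) / R z / 10 = (1 / 20) / R z := by field_simp; norm_num
          rw [h4]
          linarith only [h1, h3, h5, hd2l]
        have h6 : Real.exp (-rho z / 2) + Real.exp (-rho z / 2) / (40 * R z) =
            Real.exp (-rho z / 2) * (1 + 1 / (40 * R z)) := by ring
        rw [h6]
        refine mul_le_mul_of_nonneg_left ?_ hp.le
        linarith only [h2]
      -- lower bound for `E f`
      obtain ⟨P, hPd⟩ : ∃ P, P = rho z ^ a / R z := ⟨_, rfl⟩
      have hP0 : 0 < P := by rw [hPd]; exact div_pos hρa hRp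
      have hEf : f z - b1 / 2 * (1 + e) ^ 2 * P * Q ≤ avg (avg f) z := by
        rw [hf_avg, hfdef]
        have t1 : -((C / μ) * b1 * rho z ^ (a + 1)) * (105 / R z ^ 2) ≤
            Ψ' (rho z / M) / M * d1 z := by
          have hn : 0 ≤ (C / μ) * b1 * rho z ^ (a + 1) := by
            have : 0 < rho z ^ (a + 1) := Real.rpow_pos_of_pos (by linarith only [hρ]) _
            positivity
          have h1 : -((C / μ) * b1 * rho z ^ (a + 1)) * (105 / R z ^ 2) ≤
              -((C / μ) * b1 * rho z ^ (a + 1)) * d1 z := by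
            have := mul_le_mul_of_nonneg_left (d1_le z) hn
            linarith only [this]
          exact h1.trans (mul_le_mul_of_nonneg_right hψ1 hd1.le)
        have t2 : -(b1 / 2 * (1 + e) ^ 2 * P * (Q + D)) ≤
            -(b1 * ((1 + e) * rho z ^ a * (Q + D))) / 2 * d2 z := by
          have hn : 0 ≤ b1 * ((1 + e) * rho z ^ a * (Q + D)) / 2 := by positivity
          have h1 := mul_le_mul_of_nonneg_left hd2u hn
          have h2 : b1 * ((1 + e) * rho z ^ a * (Q + D)) / 2 * ((1 + e) / R z) =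
              b1 / 2 * (1 + e) ^ 2 * P * (Q + D) := by rw [hPd]; ring
          rw [h2] at h1
          linarith only [h1]
        have t3 : (C / μ) * b1 * rho z ^ (a + 1) * (105 / R z ^ 2) +
            b1 / 2 * (1 + e) ^ 2 * P * D ≤ b2 * (Real.exp (-rho z / 2) / (40 * R z)) := by
          have h1 : (C / μ) * b1 * rho z ^ (a + 1) * (105 / R z ^ 2) =
              b2 / R z * (105 * (C / μ) * κ * (rho z ^ (a + 1) / R z)) := by
            rw [hb1κ]; field_simp
          have h2 : b1 / 2 * (1 + e) ^ 2 * P * D ≤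
              b2 / R z * (18 * κ * Λ * (rho z ^ a / Real.sqrt (R z))) := by
            have h3 : (1 + e) ^ 2 ≤ 9 / 4 := by nlinarith only [he, he2]
            have h4 : D ≤ 8 * Λ / Real.sqrt (R z) := by
              rw [hD]
              refine div_le_div_of_nonneg_left (by positivity) hsp ?_
              nlinarith only [hM1, hsp]
            calc b1 / 2 * (1 + e) ^ 2 * P * D ≤ b1 / 2 * (9 / 4) * P * (8 * Λ / Real.sqrt (R z)) := by
                  refine mul_le_mul ?_ h4 hD0 (by positivity)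
                  refine mul_le_mul_of_nonneg_right ?_ hP0.le
                  exact mul_le_mul_of_nonneg_left h3 (by positivity)
              _ = b2 / R z * (9 * κ * Λ * (rho z ^ a / Real.sqrt (R z))) := by
                  rw [hb1κ, hPd]; field_simp; norm_num
              _ ≤ b2 / R z * (18 * κ * Λ * (rho z ^ a / Real.sqrt (R z))) := by
                  refine mul_le_mul_of_nonneg_left ?_ (by positivity)
                  refine mul_le_mul_of_nonneg_right ?_ (by positivity)
                  nlinarith only [mul_pos hκ0 hΛ]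
          have h5 : b2 * (Real.exp (-rho z / 2) / (40 * R z)) =
              b2 / R z * (Real.exp (-rho z / 2) / 40) := by field_simp
          rw [h1, h5]
          have h6 := mul_le_mul_of_nonneg_left herr (show 0 ≤ b2 / R z by positivity)
          rw [mul_add] at h6
          linarith only [h6, h2]
        have t4 : 0 ≤ A * b2 * d1 z := by positivity
        have t5 := mul_le_mul_of_nonneg_left hExf hb2p.le
        have t6 : b1 / 2 * (1 + e) ^ 2 * P * (Q + D) = b1 / 2 * (1 + e) ^ 2 * P * Q +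
            b1 / 2 * (1 + e) ^ 2 * P * D := by ring
        have t7 : A * b2 * (rho z + d1 z) = A * b2 * rho z + A * b2 * d1 z := by ring
        rw [t6] at t2
        rw [t7]
        rw [mul_add] at t5
        linarith only [t1, t2, t3, t4, t5, h2nd]
      -- conclusion
      obtain ⟨θ, hθ⟩ : ∃ θ, θ = kap * ((1 - e) * P) := ⟨_, rfl⟩
      have he0 : 0 ≤ 1 - e := by linarith only [he2]
      have hθ0 : 0 ≤ θ := by rw [hθ]; positivity
      have hP1 : P ≤ 1 := by rw [hPd]; exact hr3' z (hr0c.trans hR)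
      have hθe : θ ≤ e := by
        rw [hθ]
        calc kap * ((1 - e) * P) ≤ e * (1 * 1) := by
              refine mul_le_mul hkape ?_ (by positivity) he.le
              exact mul_le_mul (by linarith only [he]) hP1 hP0.le (by norm_num)
          _ = e := by ring
      have hFQ : Q ≤ f z := by
        rw [hQ]
        refine max_le ?_ hz2.le
        rw [hfdef]
        have := hcor0 z
        linarith only [this]
      have hfin := sub_arith he hθ hθe hP0.le hQ0 hFQ hθ0 hb1p.le hkc hEf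
      have hlow : avg (avg (fun y => ((1 + θ) / 2) * f y)) z ≤
          avg (avg (fun y => (1 + kap * h y) * φ y)) z := by
        refine avg2_mono fun y hy => ?_
        have h1 := (hr1' z (hr01.trans hR) y hy).1
        rw [← hPd] at h1
        have h2 : θ ≤ kap * h y := by
          rw [hθ]; exact mul_le_mul_of_nonneg_left h1 hkap0.le
        have h3 := hφy y hy
        calc (1 + θ) / 2 * f y = (1 + θ) * (f y / 2) := by ring
          _ ≤ (1 + θ) * φ y := mul_le_mul_of_nonneg_left h3 (by linarith only [hθ0])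
          _ ≤ (1 + kap * h y) * φ y := mul_le_mul_of_nonneg_right (by linarith only [h2]) (hφ0 y)
      rw [avg2_mul] at hlow
      refine le_trans ?_ hlow
      linarith only [hfin]
    · -- close to the origin
      have hρT : rho z ≤ T - 1 := by
        rw [hT]
        unfold rho
        have := Real.log_le_log hRp hR.le
        linarith only [this]
      have h2nd := hgen (-(b1 * (T ^ |a| * Λ))) (1 / 4) le_rfl (fun y hy => drho_le' hy) (by
        intro s hs1 hs2
        obtain ⟨h3, h4⟩ := hsM s hs1 hs2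
        have h5 := hΨb (s / M) (div_pos h3 hM0) h4
        have h6 : s ^ a ≤ T ^ |a| := by
          calc s ^ a ≤ s ^ |a| := Real.rpow_le_rpow_of_exponent_le (by linarith only [hs1, hρ])
                (le_abs_self a)
            _ ≤ T ^ |a| := Real.rpow_le_rpow h3.le (by linarith only [hs2, hρT]) (abs_nonneg a)
        have h7 : 0 < s ^ a := Real.rpow_pos_of_pos h3 a
        have h8 : s ^ a * Ψ (s / M) ≤ T ^ |a| * Λ := by
          calc s ^ a * Ψ (s / M) ≤ s ^ a * Λ :=
                mul_le_mul_of_nonneg_left ((le_abs_self _).trans h5) h7.le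
            _ ≤ T ^ |a| * Λ := mul_le_mul_of_nonneg_right h6 hΛ.le
        have h9 := mul_le_mul_of_nonneg_left h8 hb1p.le
        exact neg_le_neg h9)
      have hd2u : d2 z ≤ 1 / 16 := by
        have h1 := avg2_mono (g := fun y => (rho y - rho z) ^ 2) (k := fun _ => 1 / 16) (z := z)
          (fun y hy => by
            have h2 := drho_le' hy
            rw [← sq_abs]
            nlinarith only [abs_nonneg (rho y - rho z), h2])
        rw [avg2_const] at h1
        exact h1
      have hEf : f z ≤ avg (avg f) z := by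
        rw [hf_avg, hfdef]
        have hTa : 0 < T ^ |a| := Real.rpow_pos_of_pos (by linarith only [hT1]) _
        have hTa1 : 0 < T ^ (a + 1) := Real.rpow_pos_of_pos (by linarith only [hT1]) _
        have t1 : -((C / μ) * κ * T ^ (a + 1) * b2) * d1 z ≤ Ψ' (rho z / M) / M * d1 z := by
          refine mul_le_mul_of_nonneg_right ?_ hd1.le
          refine le_trans ?_ hψ1
          rw [hb1κ]
          have h1 : rho z ^ (a + 1) ≤ T ^ (a + 1) :=
            Real.rpow_le_rpow (by linarith only [hρ]) (by linarith only [hρT])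
              (by linarith only [ha])
          have h2 := mul_le_mul_of_nonneg_left h1 (show 0 ≤ (C / μ) * (κ * b2) by positivity)
          linarith only [h2]
        have t2 : -(b2 * κ * T ^ |a| * Λ / 32) ≤ -(b1 * (T ^ |a| * Λ)) / 2 * d2 z := by
          have hn : 0 ≤ b1 * (T ^ |a| * Λ) / 2 := by positivity
          have h1 := mul_le_mul_of_nonneg_left hd2u hn
          have h2 : b1 * (T ^ |a| * Λ) / 2 * (1 / 16) = b2 * κ * T ^ |a| * Λ / 32 := by
            rw [hb1κ]; ring
          rw [h2] at h1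
          linarith only [h1]
        have t3 : Real.exp (-rho z / 2) - d1 z / 2 ≤
            avg (avg (fun y => Real.exp (-rho y / 2))) z := by
          refine le_trans ?_ hEx
          have h3 : Real.exp (-rho z / 2) ≤ 1 := by
            rw [Real.exp_le_one_iff]
            linarith only [hρ]
          have hp := Real.exp_pos (-rho z / 2)
          have h4 : Real.exp (-rho z / 2) * (d1 z / 2) ≤ 1 * (d1 z / 2) :=
            mul_le_mul_of_nonneg_right h3 (by linarith only [hd1])
          have h5 : 0 ≤ Real.exp (-rho z / 2) * (d2 z / 10) := by positivity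
          have h6 : Real.exp (-rho z / 2) * (1 - d1 z / 2 + d2 z / 10) =
            Real.exp (-rho z / 2) - Real.exp (-rho z / 2) * (d1 z / 2) +
              Real.exp (-rho z / 2) * (d2 z / 10) := by ring
          rw [h6]
          linarith only [h4, h5]
        have t4 : 80 / r0 ^ 2 ≤ d1 z := by
          refine le_trans ?_ (d1_ge z)
          refine div_le_div_of_nonneg_left (by norm_num) (by positivity) ?_
          exact pow_le_pow_left₀ hRp.le hR.le 2
        have t5 := mul_le_mul_of_nonneg_left t3 hb2p.le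
        have t6 : b2 * κ * T ^ |a| * Λ / 32 ≤
            (κ * T ^ |a| * Λ * r0 ^ 2 / 2560) * b2 * d1 z := by
          have h1 := mul_le_mul_of_nonneg_left t4
            (show 0 ≤ (κ * T ^ |a| * Λ * r0 ^ 2 / 2560) * b2 by positivity)
          have h2 : (κ * T ^ |a| * Λ * r0 ^ 2 / 2560) * b2 * (80 / r0 ^ 2) =
              b2 * κ * T ^ |a| * Λ / 32 := by
            field_simp; norm_num
          rw [h2] at h1
          exact h1
        have t7 : A * b2 * (rho z + d1 z) = A * b2 * rho z + ((1 / 2) * b2 * d1 z +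
            (C / μ) * κ * T ^ (a + 1) * b2 * d1 z +
            (κ * T ^ |a| * Λ * r0 ^ 2 / 2560) * b2 * d1 z) := by
          have : A * b2 * d1 z = (1 / 2) * b2 * d1 z +
            (C / μ) * κ * T ^ (a + 1) * b2 * d1 z +
            (κ * T ^ |a| * Λ * r0 ^ 2 / 2560) * b2 * d1 z := by rw [hAd]; ring
          rw [← this]; ring
        rw [t7]
        rw [mul_sub] at t5
        linarith only [t1, t2, t5, t6, h2nd]
      have hlow : avg (avg (fun y => (1 / 2) * f y)) z ≤
          avg (avg (fun y => (1 + kap * h y) * φ y)) z := by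
        refine avg2_mono fun y hy => ?_
        have h2 : 0 ≤ kap * h y := mul_nonneg hkap0.le (hh0 y)
        have h3 := hφy y hy
        calc (1 / 2) * f y = f y / 2 := by ring
          _ ≤ φ y := h3
          _ = 1 * φ y := (one_mul _).symm
          _ ≤ (1 + kap * h y) * φ y := mul_le_mul_of_nonneg_right (by linarith only [h2]) (hφ0 y)
      rw [avg2_mul] at hlow
      refine le_trans ?_ hlow
      linarith only [hEf]

end Pool.Agent.H294.DP
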