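import Pool.Agent.H294.DP.Pro

/-! # Supersolutions from the profile -/

set_option autoImplicit false

open Filter Finset
open Pool.Agent.H964.DP (V ns stp avg Asym Prof Sup)

namespace Pool.Agent.H294.DP

/-- choice of the small constants -/
lemma sup_consts (a : ℝ) {ε : ℝ} (hε : 0 < ε) (_hε1 : ε < 1) :
    ∃ e1 e : ℝ, 0 < e1 ∧ e1 ≤ 1 ∧ 0 < e ∧ e ≤ 1 / 2 ∧
      (1 - ε) * (1 + e1) ^ (a + 2) ≤ 1 - ε / 2 ∧ (1 + e) ^ 3 * (1 - ε / 2) ≤ (1 - e) ^ 3 := by
  have h1 : Tendsto (fun x : ℝ => (1 - ε) * (1 + x) ^ (a + 2)) (nhds 0) (nhds (1 - ε)) := by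
    have hc : ContinuousAt (fun x : ℝ => (1 - ε) * (1 + x) ^ (a + 2)) 0 := by
      refine ContinuousAt.mul continuousAt_const ?_
      refine ContinuousAt.rpow_const (by fun_prop) (Or.inl (by norm_num))
    have := hc.tendsto
    simpa using this
  have h2 : Tendsto (fun x : ℝ => (1 - x) ^ 3 - (1 + x) ^ 3 * (1 - ε / 2)) (nhds 0)
      (nhds (ε / 2)) := by
    have hc : Continuous (fun x : ℝ => (1 - x) ^ 3 - (1 + x) ^ 3 * (1 - ε / 2)) := by fun_prop
    have := hc.tendsto 0
    simpa using this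
  have h3 : ∀ᶠ x : ℝ in nhdsWithin 0 (Set.Ioi 0), (1 - ε) * (1 + x) ^ (a + 2) < 1 - ε / 2 :=
    (h1.mono_left nhdsWithin_le_nhds).eventually_lt_const (by linarith)
  have h4 : ∀ᶠ x : ℝ in nhdsWithin 0 (Set.Ioi 0),
      0 < (1 - x) ^ 3 - (1 + x) ^ 3 * (1 - ε / 2) :=
    (h2.mono_left nhdsWithin_le_nhds).eventually_const_lt (by linarith)
  have h5 : ∀ᶠ x : ℝ in nhdsWithin 0 (Set.Ioi 0), x < 1 / 2 :=
    (tendsto_id.mono_left nhdsWithin_le_nhds).eventually_lt_const (by norm_num)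
  have h6 : ∀ᶠ x : ℝ in nhdsWithin 0 (Set.Ioi 0), 0 < x := self_mem_nhdsWithin
  obtain ⟨e1, ⟨b1, b2⟩, b3⟩ := ((h3.and h5).and h6).exists
  obtain ⟨e, ⟨c1, c2⟩, c3⟩ := ((h4.and h5).and h6).exists
  exact ⟨e1, e, b3, by linarith, c3, by linarith, b1.le, by linarith⟩

/-- the inequality far from the origin -/
lemma sup_arith {e ε lam b1 P Q R0 d D h f B : ℝ} (he : 0 < e) (he1 : e ≤ 1 / 2)
    (h3 : (1 + e) ^ 3 * (1 - ε / 2) ≤ (1 - e) ^ 3) (hlam : lam ≤ (1 - ε / 2) * (b1 / 2))
    (hlam0 : 0 ≤ lam)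
    (hP : 0 ≤ P) (hQ : 0 ≤ Q) (hR0 : 0 < R0) (hb1 : 0 ≤ b1) (hd : (1 - e) / R0 ≤ d)
    (hD : D ≤ -((1 - e) * P * ((1 - e) * Q) * b1) / 2 * d)
    (hh : h ≤ (1 + e) * (P / R0)) (hf : f ≤ (1 + e) * Q) (hf0 : 0 ≤ f)
    (hB : B ≤ (1 + e) * (lam * h) * f) : D + B ≤ 0 := by
  have k1 : B ≤ (1 + e) * (lam * ((1 + e) * (P / R0))) * ((1 + e) * Q) := by
    refine hB.trans ?_
    refine mul_le_mul ?_ hf hf0 ?_
    · exact mul_le_mul_of_nonneg_left (mul_le_mul_of_nonneg_left hh hlam0) (by linarith)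
    · positivity
  have k2 : (1 + e) * (lam * ((1 + e) * (P / R0))) * ((1 + e) * Q) =
      lam * ((1 + e) ^ 3 * (P * Q / R0)) := by ring
  have hpq : 0 ≤ P * Q / R0 := by positivity
  have k3 : lam * ((1 + e) ^ 3 * (P * Q / R0)) ≤
      (1 - ε / 2) * (b1 / 2) * ((1 + e) ^ 3 * (P * Q / R0)) :=
    mul_le_mul_of_nonneg_right hlam (by positivity)
  have k4 : (1 - ε / 2) * (b1 / 2) * ((1 + e) ^ 3 * (P * Q / R0)) =
      ((1 + e) ^ 3 * (1 - ε / 2)) * ((b1 / 2) * (P * Q / R0)) := by ring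
  have k5 : ((1 + e) ^ 3 * (1 - ε / 2)) * ((b1 / 2) * (P * Q / R0)) ≤
      (1 - e) ^ 3 * ((b1 / 2) * (P * Q / R0)) :=
    mul_le_mul_of_nonneg_right h3 (by positivity)
  have he2 : 0 ≤ 1 - e := by linarith
  have k6 : D ≤ -((1 - e) * P * ((1 - e) * Q) * b1) / 2 * ((1 - e) / R0) := by
    refine hD.trans ?_
    have : 0 ≤ ((1 - e) * P * ((1 - e) * Q) * b1) / 2 := by positivity
    nlinarith
  have k7 : -((1 - e) * P * ((1 - e) * Q) * b1) / 2 * ((1 - e) / R0) =
      -((1 - e) ^ 3 * ((b1 / 2) * (P * Q / R0))) := by ring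
  linarith

set_option maxHeartbeats 4000000 in
theorem t_HSUP : Pool.Agent.H964.DP.S_HSUP := by
  intro a μ Ψ Ψ' ha hP h hA ε hε hε1
  have hμ := hP.mu_pos
  obtain ⟨e1, e, he1, he11, he, he2, hc1, hc2⟩ := sup_consts a hε hε1
  obtain ⟨H, hH, hH'⟩ := asym_bdd hA
  obtain ⟨δ, hδ, hδ2, hδ'⟩ := rpow_near a he
  obtain ⟨r1, hr1, hr1'⟩ := asym_nb hA he
  obtain ⟨Λ, hΛ, hΛ'⟩ := prof_lip ha hP
  -- the radius
  obtain ⟨r0, hr0⟩ : ∃ r0, r0 = max r1 (max ((8 / δ) ^ 2) ((40 / e) ^ 2)) := ⟨_, rfl⟩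
  have hr01 : r1 ≤ r0 := by rw [hr0]; exact le_max_left _ _
  have hr02 : (8 / δ) ^ 2 ≤ r0 := by rw [hr0]; exact (le_max_left _ _).trans (le_max_right _ _)
  have hr03 : (40 / e) ^ 2 ≤ r0 := by rw [hr0]; exact (le_max_right _ _).trans (le_max_right _ _)
  have hr0p : 0 < r0 := by linarith
  -- constants
  obtain ⟨A, hAd⟩ : ∃ A, A = μ * H * r0 ^ 2 / 80 := ⟨_, rfl⟩
  have hA0 : 0 < A := by rw [hAd]; positivity
  obtain ⟨c0, hc0⟩ : ∃ c0, c0 = Ψ (1 - e1 / 4) := ⟨_, rfl⟩
  have hc0p : 0 < c0 := by rw [hc0]; exact hP.pos _ (by linarith) (by linarith)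
  -- large `L`
  have hT1 : Tendsto (fun L : ℝ => L ^ (-(a + 2))) atTop (nhds 0) :=
    tendsto_rpow_neg_atTop (by linarith)
  have hT2 : Tendsto (fun L : ℝ => L ^ (-(a + 1))) atTop (nhds 0) :=
    tendsto_rpow_neg_atTop (by linarith)
  have q1 : ∀ᶠ L : ℝ in atTop, 3 * A * L ^ (-(a + 1)) ≤ c0 / 2 := by
    have := hT2.const_mul (3 * A)
    rw [mul_zero] at this
    exact this.eventually_le_const (by positivity)
  have q2 : ∀ᶠ L : ℝ in atTop, μ * H * L ^ (-(a + 2)) ≤ e := by
    have := hT1.const_mul (μ * H)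
    rw [mul_zero] at this
    exact this.eventually_le_const (by positivity)
  have q3 : ∀ᶠ L : ℝ in atTop, Λ / (e * c0) ≤ L := eventually_ge_atTop _
  have q4 : ∀ᶠ L : ℝ in atTop, 4 / e1 ≤ L := eventually_ge_atTop _
  have q5 : ∀ᶠ L : ℝ in atTop, 1 ≤ L := eventually_ge_atTop _
  obtain ⟨L₀, hL₀⟩ := ((((q1.and q2).and q3).and q4).and q5).exists_forall_of_atTop
  refine ⟨c0 / 2, max L₀ 1, by positivity, le_max_right _ _, ?_⟩
  intro L hL
  obtain ⟨⟨⟨⟨p1, p2⟩, p3⟩, p4⟩, p5⟩ := hL₀ L ((le_max_left _ _).trans hL)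
  clear hL hL₀ q1 q2 q3 q4 q5 hT1 hT2
  have hL0 : 0 < L := by linarith
  -- the scales
  obtain ⟨M, hM⟩ : ∃ M, M = (1 + e1) * L := ⟨_, rfl⟩
  have hM0 : 0 < M := by rw [hM]; positivity
  have hML : L ≤ M := by rw [hM]; nlinarith
  obtain ⟨b2, hb2⟩ : ∃ b2, b2 = L ^ (-(a + 2)) := ⟨_, rfl⟩
  have hb2p : 0 < b2 := by rw [hb2]; exact Real.rpow_pos_of_pos hL0 _
  have hb2' : b2 = 1 / L ^ (a + 2) := by rw [hb2, Real.rpow_neg hL0.le, one_div]
  obtain ⟨b1, hb1⟩ : ∃ b1, b1 = μ / M ^ (a + 2) := ⟨_, rfl⟩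
  have hb1p : 0 < b1 := by rw [hb1]; exact div_pos hμ (Real.rpow_pos_of_pos hM0 _)
  obtain ⟨lam, hlam⟩ : ∃ lam, lam = (1 - ε) * μ / (2 * L ^ (a + 2)) := ⟨_, rfl⟩
  have hlam0 : 0 ≤ lam := by
    rw [hlam]
    have : 0 ≤ L ^ (a + 2) := Real.rpow_nonneg hL0.le _
    exact div_nonneg (mul_nonneg (by linarith) hμ.le) (by linarith)
  have hlam1 : lam ≤ μ * b2 / 2 := by
    rw [hlam, hb2']
    have hp : 0 < L ^ (a + 2) := Real.rpow_pos_of_pos hL0 _
    have e3 : μ * (1 / L ^ (a + 2)) / 2 = μ / (2 * L ^ (a + 2)) := by field_simp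
    rw [e3]
    exact div_le_div_of_nonneg_right (by nlinarith) (by positivity)
  have hlam2 : lam ≤ (1 - ε / 2) * (b1 / 2) := by
    have hp : 0 < L ^ (a + 2) := Real.rpow_pos_of_pos hL0 _
    have hq : 0 < (1 + e1) ^ (a + 2) := Real.rpow_pos_of_pos (by linarith) _
    have e3 : (1 - ε / 2) * (b1 / 2) = (1 - ε / 2) * (μ / (2 * L ^ (a + 2))) / (1 + e1) ^ (a + 2) := by
      rw [hb1, hM, Real.mul_rpow (by linarith) hL0.le]
      field_simp
    rw [e3, le_div_iff₀ hq, hlam]
    have e4 : (1 - ε) * μ / (2 * L ^ (a + 2)) * (1 + e1) ^ (a + 2) =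
        ((1 - ε) * (1 + e1) ^ (a + 2)) * (μ / (2 * L ^ (a + 2))) := by ring
    rw [e4]
    exact mul_le_mul_of_nonneg_right hc1 (by positivity)
  -- the function
  let f : V → ℝ := fun z => Ψ (rho z / M) - A * b2 * rho z
  -- bounds in the larger disc
  have hrM : ∀ y : V, ns y ≤ Real.exp (2 * L + 2) → rho y / M ≤ 1 - e1 / 4 := by
    intro y hy
    rw [div_le_iff₀ hM0, hM]
    have h1 := rho_le p5 hy
    have h2 : 4 ≤ L * e1 := by rwa [div_le_iff₀ he1] at p4
    nlinarith
  have hrM0 : ∀ y : V, 0 < rho y / M := fun y => div_pos (by linarith [rho_ge y]) hM0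
  have hψ0 : ∀ y : V, ns y ≤ Real.exp (2 * L + 2) → c0 ≤ Ψ (rho y / M) := by
    intro y hy
    rw [hc0]
    exact prof_anti hP (hrM0 y).le (hrM y hy) (by linarith)
  have hcor : ∀ y : V, ns y ≤ Real.exp (2 * L + 2) → A * b2 * rho y ≤ c0 / 2 := by
    intro y hy
    refine le_trans ?_ p1
    have h1 := rho_le p5 hy
    have h2 : rho y ≤ 3 * L := by linarith
    have h3 : L ^ (-(a + 1)) = b2 * L := by
      rw [hb2, ← Real.rpow_add_one hL0.ne']
      congr 1; ring
    rw [h3]
    calc A * b2 * rho y ≤ A * b2 * (3 * L) := mul_le_mul_of_nonneg_left h2 (by positivity)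
      _ = _ := by ring
  have hf0 : ∀ y : V, ns y ≤ Real.exp (2 * L + 2) → c0 / 2 ≤ f y := by
    intro y hy
    have h1 := hψ0 y hy
    have h2 := hcor y hy
    show c0 / 2 ≤ Ψ (rho y / M) - A * b2 * rho y
    linarith
  have hf1 : ∀ y : V, ns y ≤ Real.exp (2 * L + 2) → f y ≤ 1 := by
    intro y hy
    show Ψ (rho y / M) - A * b2 * rho y ≤ 1
    have h1 : Ψ (rho y / M) ≤ Ψ 0 := prof_anti hP le_rfl (hrM0 y).le
      ((hrM y hy).trans (by linarith))
    rw [hP.zero] at h1
    have h2 : 0 ≤ A * b2 * rho y := by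
      have := rho_ge y
      positivity
    linarith
  have hexp : Real.exp (2 * L) ≤ Real.exp (2 * L + 2) := Real.exp_le_exp.mpr (by linarith)
  classical
  refine ⟨fun z => if ns z ≤ Real.exp (2 * L + 2) then f z else 0, ?_, ?_, ?_⟩
  · intro z
    simp only
    split_ifs with hz
    · exact ⟨by linarith [hf0 z hz], hf1 z hz⟩
    · exact ⟨le_rfl, zero_le_one⟩
  · intro z hz
    simp only
    rw [if_pos (hz.trans hexp)]
    exact hf0 z (hz.trans hexp)
  · intro z hz
    beta_reduce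
    rw [if_pos (hz.trans hexp)]
    have hnb : ∀ y, nb z y → ns y ≤ Real.exp (2 * L + 2) := fun y hy => nb_exp hy p5 hz
    rw [← hlam]
    have hzz := hz.trans hexp
    -- expansion of the exponential
    have hex : ∀ y : V, Real.exp (lam * |h y|) ≤ 1 + (1 + e) * (lam * |h y|) := by
      intro y
      have h1 : 0 ≤ lam * |h y| := mul_nonneg hlam0 (abs_nonneg _)
      have h2 : lam * |h y| ≤ e := by
        calc lam * |h y| ≤ lam * H := mul_le_mul_of_nonneg_left (hH' y) hlam0
          _ ≤ μ * b2 / 2 * H := mul_le_mul_of_nonneg_right hlam1 hH.le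
          _ ≤ μ * H * b2 := by nlinarith [mul_pos (mul_pos hμ hb2p) hH]
          _ ≤ e := by rw [hb2]; exact p2
      have h3 := Real.abs_exp_sub_one_sub_id_le (x := lam * |h y|)
        (by rw [abs_of_nonneg h1]; linarith)
      have h4 := (abs_le.mp h3).2
      nlinarith
    -- reduction to a constant bound
    have hred : ∀ B : ℝ, (∀ y, nb z y → (1 + e) * (lam * |h y|) * f y ≤ B) →
        avg (avg (fun y => Real.exp (lam * |h y|) *
          (if ns y ≤ Real.exp (2 * L + 2) then f y else 0))) z ≤ avg (avg f) z + B := by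
      intro B hB
      have h1 : avg (avg (fun y => f y + B)) z = avg (avg f) z + B := by
        rw [avg2_add f (fun _ => B), avg2_const]
      rw [← h1]
      refine avg2_mono fun y hy => ?_
      rw [if_pos (hnb y hy)]
      have h2 := mul_le_mul_of_nonneg_right (hex y) (show 0 ≤ f y by linarith [hf0 y (hnb y hy)])
      have h3 := hB y hy
      linarith
    have hf_avg : avg (avg f) z = avg (avg (fun y => Ψ (rho y / M))) z - A * b2 * (rho z + d1 z) := by
      have h1 := avg2_add (fun y => Ψ (rho y / M)) (fun y => (-(A * b2)) * rho y) z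
      rw [avg2_mul, avg_rho] at h1
      have h2 : avg (avg f) z = avg (avg (fun y => Ψ (rho y / M) + (-(A * b2)) * rho y)) z := by
        refine avg2_congr fun y _ => ?_
        show Ψ (rho y / M) - A * b2 * rho y = _
        ring
      rw [h2, h1]; ring
    have hρ := rho_ge z
    -- the interval of `ρ`
    have hsM : ∀ s, rho z - 1 / 4 ≤ s → s ≤ rho z + 1 / 4 → 0 < s ∧ s / M < 1 := by
      intro s h1 h2
      refine ⟨by linarith, ?_⟩
      have h3 : rho z ≤ L + 2 := rho_le p5 hzz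
      rw [div_lt_one hM0, hM]
      have h4 : 4 ≤ L * e1 := by rwa [div_le_iff₀ he1] at p4
      nlinarith
    have hd1 := d1_pos z
    have hΨ'z : Ψ' (rho z / M) / M ≤ 0 :=
      div_nonpos_of_nonpos_of_nonneg (hP.nonpos _ (hrM0 z) ((hrM z hzz).trans (by linarith))) hM0.le
    have hgen : ∀ m δ' : ℝ, δ' ≤ 1 / 4 → (∀ y, nb z y → |rho y - rho z| ≤ δ') →
        (∀ s, rho z - δ' ≤ s → s ≤ rho z + δ' →
        -(μ / M ^ (a + 2) * (s ^ a * Ψ (s / M))) ≤ m) →
        avg (avg (fun y => Ψ (rho y / M))) z ≤ Ψ (rho z / M) + m / 2 * d2 z := by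
      intro m δ' hδ1 hδ2 hm
      have h1 := E_up (g := fun s => Ψ (s / M)) (g' := fun s => Ψ' (s / M) / M)
        (g'' := fun s => -(μ / M ^ (a + 2) * (s ^ a * Ψ (s / M)))) (z := z) (δ := δ') (m := m)
        hδ2 ?_ ?_ hm
      · have h2 : Ψ' (rho z / M) / M * d1 z ≤ 0 := mul_nonpos_of_nonpos_of_nonneg hΨ'z hd1.le
        linarith
      · intro s hs1 hs2
        obtain ⟨h3, h4⟩ := hsM s (by linarith) (by linarith)
        exact (prof_der hP hM0 h3 (by rw [div_lt_one hM0] at h4; linarith)).1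
      · intro s hs1 hs2
        obtain ⟨h3, h4⟩ := hsM s (by linarith) (by linarith)
        exact (prof_der hP hM0 h3 (by rw [div_lt_one hM0] at h4; linarith)).2
    have hAd1 : 0 ≤ A * b2 * d1 z := by positivity
    rcases le_or_gt r0 (R z) with hR | hR
    · -- far from the origin
      have hRp := R_pos z
      have hs8 : 8 / Real.sqrt (R z) ≤ δ := by
        have h1 : 8 / δ ≤ Real.sqrt (R z) := by
          rw [show 8 / δ = Real.sqrt ((8 / δ) ^ 2) by rw [Real.sqrt_sq (by positivity)]]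
          exact Real.sqrt_le_sqrt (hr02.trans hR)
        rw [div_le_iff₀ hδ] at h1
        rw [div_le_iff₀ (Real.sqrt_pos.mpr hRp)]
        linarith
      have hs40 : 40 / Real.sqrt (R z) ≤ e := by
        have h1 : 40 / e ≤ Real.sqrt (R z) := by
          rw [show 40 / e = Real.sqrt ((40 / e) ^ 2) by rw [Real.sqrt_sq (by positivity)]]
          exact Real.sqrt_le_sqrt (hr03.trans hR)
        rw [div_le_iff₀ he] at h1
        rw [div_le_iff₀ (Real.sqrt_pos.mpr hRp)]
        linarith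
      have hd2 : (1 - e) / R z ≤ d2 z := by
        have h1 := (abs_le.mp (d2_err z)).1
        have h2 : 40 / Real.sqrt (R z) / R z ≤ e / R z := div_le_div_of_nonneg_right hs40 hRp.le
        rw [sub_div]
        linarith
      -- closeness of the profile
      have hΨc : ∀ s, rho z - 1 / 4 ≤ s → s ≤ rho z + 1 / 4 →
          (1 - e) * Ψ (rho z / M) ≤ Ψ (s / M) ∧ Ψ (s / M) ≤ (1 + e) * Ψ (rho z / M) := by
        intro s hs1 hs2
        obtain ⟨h3, h4⟩ := hsM s hs1 hs2
        have h5 := hΛ' (s / M) (rho z / M) (div_pos h3 hM0) (by linarith) (hrM0 z)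
          (by have := hrM z hzz; linarith)
        have h6 : |s / M - rho z / M| ≤ 1 / L := by
          rw [← sub_div, abs_div, abs_of_pos hM0, div_le_div_iff₀ hM0 hL0]
          have h7 : |s - rho z| ≤ 1 := by rw [abs_le]; constructor <;> linarith
          nlinarith [abs_nonneg (s - rho z)]
        have h8 : Λ * |s / M - rho z / M| ≤ e * c0 := by
          calc Λ * |s / M - rho z / M| ≤ Λ * (1 / L) := mul_le_mul_of_nonneg_left h6 hΛ.le
            _ ≤ e * c0 := by
              rw [mul_one_div, div_le_iff₀ hL0]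
              rw [div_le_iff₀ (by positivity)] at p3
              linarith
        have h9 := hψ0 z hzz
        have h10 : e * c0 ≤ e * Ψ (rho z / M) := mul_le_mul_of_nonneg_left h9 he.le
        have h11 := abs_le.mp h5
        constructor <;> linarith [h11.1, h11.2]
      have hρa : 0 < rho z ^ a := Real.rpow_pos_of_pos (by linarith) a
      have hψz := hψ0 z hzz
      -- second order term
      have hδm : ∀ y, nb z y → |rho y - rho z| ≤ min δ (1 / 4) := fun y hy =>
        le_min ((drho_le hy).trans hs8) (drho_le' hy)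
      have h2nd := hgen (-((1 - e) * rho z ^ a * ((1 - e) * Ψ (rho z / M)) * b1)) (min δ (1 / 4))
        (min_le_right _ _) hδm (by
          intro s hs1 hs2
          have hm1 := min_le_left δ (1 / 4)
          have hm2 := min_le_right δ (1 / 4)
          have h1 := (rpow_near' a hδ' (s := s) (t := rho z) (by linarith)
            (by rw [abs_le]; constructor <;> linarith) (by linarith)).1
          have h2 := (hΨc s (by linarith) (by linarith)).1
          rw [← hb1]
          have h3 : (1 - e) * rho z ^ a * ((1 - e) * Ψ (rho z / M)) ≤ s ^ a * Ψ (s / M) := by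
            refine mul_le_mul h1 h2 ?_ ?_
            · exact mul_nonneg (by linarith) (by linarith)
            · exact Real.rpow_nonneg (by linarith) _
          nlinarith)
      -- pick the bound
      obtain ⟨B, hB⟩ : ∃ B, B = (1 + e) * (lam * ((1 + e) * (rho z ^ a / R z))) *
        ((1 + e) * Ψ (rho z / M)) := ⟨_, rfl⟩
      have hBB : ∀ y, nb z y → (1 + e) * (lam * |h y|) * f y ≤ B := by
        intro y hy
        obtain ⟨h1, h2⟩ := hr1' z (hr01.trans hR) y hy
        have h3 : 0 < rho z ^ a / R z := div_pos hρa hRp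
        have h4 : |h y| ≤ (1 + e) * (rho z ^ a / R z) := by
          rw [abs_le]; constructor
          · have : 0 ≤ (1 - e) * (rho z ^ a / R z) := mul_nonneg (by linarith) h3.le
            have : 0 ≤ (1 + e) * (rho z ^ a / R z) := mul_nonneg (by linarith) h3.le
            linarith
          · exact h2
        have h5 := abs_le.mp (drho_le' hy)
        have h6 := (hΨc (rho y) (by linarith [h5.1]) (by linarith [h5.2])).2
        have h7 : f y ≤ (1 + e) * Ψ (rho z / M) := by
          have h8 : 0 ≤ A * b2 * rho y := by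
            have := rho_ge y
            positivity
          show Ψ (rho y / M) - A * b2 * rho y ≤ _
          linarith
        have h9 : 0 ≤ f y := by linarith [hf0 y (hnb y hy)]
        rw [hB]
        refine mul_le_mul ?_ h7 h9 ?_
        · exact mul_le_mul_of_nonneg_left (mul_le_mul_of_nonneg_left h4 hlam0) (by linarith)
        · positivity
      have h1 := hred B hBB
      have h2 := sup_arith (e := e) (ε := ε) (lam := lam) (b1 := b1) (P := rho z ^ a)
        (Q := Ψ (rho z / M)) (R0 := R z) (d := d2 z)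
        (D := -((1 - e) * rho z ^ a * ((1 - e) * Ψ (rho z / M)) * b1) / 2 * d2 z)
        (h := (1 + e) * (rho z ^ a / R z)) (f := (1 + e) * Ψ (rho z / M)) (B := B)
        he he2 hc2 hlam2 hlam0 hρa.le (by linarith) hRp hb1p.le hd2 le_rfl le_rfl
        le_rfl (mul_nonneg (by linarith) (by linarith)) hB.le
      refine h1.trans ?_
      rw [hf_avg]
      show _ ≤ Ψ (rho z / M) - A * b2 * rho z
      linarith
    · -- close to the origin
      have hRp := R_pos z
      have h1 := hgen 0 (1 / 4) le_rfl (fun y hy => drho_le' hy) (by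
        intro s hs1 hs2
        obtain ⟨h3, h4⟩ := hsM s hs1 hs2
        have h5 : 0 < Ψ (s / M) := hP.pos _ (div_pos h3 hM0).le h4
        have h6 : 0 < s ^ a := Real.rpow_pos_of_pos h3 a
        rw [← hb1]
        have : 0 < b1 * (s ^ a * Ψ (s / M)) := by positivity
        linarith)
      have h2 := hred (μ * b2 * H) (by
        intro y hy
        have h3 : f y ≤ 1 := hf1 y (hnb y hy)
        have h3' : 0 ≤ f y := by linarith [hf0 y (hnb y hy)]
        have h4 : (1 + e) * (lam * |h y|) ≤ μ * b2 * H := by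
          have h5 : lam * |h y| ≤ μ * b2 / 2 * H :=
            mul_le_mul hlam1 (hH' y) (abs_nonneg _) (by positivity)
          have h6 : 0 ≤ lam * |h y| := mul_nonneg hlam0 (abs_nonneg _)
          calc (1 + e) * (lam * |h y|) ≤ 2 * (lam * |h y|) :=
                mul_le_mul_of_nonneg_right (by linarith) h6
            _ ≤ 2 * (μ * b2 / 2 * H) := by linarith
            _ = μ * b2 * H := by ring
        calc (1 + e) * (lam * |h y|) * f y ≤ μ * b2 * H * 1 :=
              mul_le_mul h4 h3 h3' (by positivity)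
          _ = μ * b2 * H := mul_one _)
      have h3 : μ * b2 * H ≤ A * b2 * d1 z := by
        have h4 : 80 / r0 ^ 2 ≤ d1 z := by
          refine le_trans ?_ (d1_ge z)
          refine div_le_div_of_nonneg_left (by norm_num) (by positivity) ?_
          exact pow_le_pow_left₀ hRp.le hR.le 2
        calc μ * b2 * H = A * b2 * (80 / r0 ^ 2) := by rw [hAd]; field_simp
          _ ≤ A * b2 * d1 z := mul_le_mul_of_nonneg_left h4 (by positivity)
      refine h2.trans ?_
      rw [hf_avg]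
      show _ ≤ Ψ (rho z / M) - A * b2 * rho z
      linarith

end Pool.Agent.H294.DP
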