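import Pool.Agent.H294.DP.Com

/-! # The profile and expectations of functions of `ρ` -/

set_option autoImplicit false

open Filter Finset
open Pool.Agent.H964.DP (V ns stp avg Asym Prof)

namespace Pool.Agent.H294.DP

lemma avg_rho (z : V) : avg (avg rho) z = rho z + d1 z := by
  unfold d1
  have h := avg2_add (fun y => rho y - rho z) (fun _ => rho z) z
  rw [avg2_const] at h
  simp only [sub_add_cancel] at h
  rw [← add_comm, ← h]

/-- upper bound for the expectation of a function of `ρ` -/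
lemma E_up {g g' g'' : ℝ → ℝ} {z : V} {δ m : ℝ} (hδ : ∀ y, nb z y → |rho y - rho z| ≤ δ)
    (h1 : ∀ s, rho z - δ ≤ s → s ≤ rho z + δ → HasDerivAt g (g' s) s)
    (h2 : ∀ s, rho z - δ ≤ s → s ≤ rho z + δ → HasDerivAt g' (g'' s) s)
    (h3 : ∀ s, rho z - δ ≤ s → s ≤ rho z + δ → g'' s ≤ m) :
    avg (avg (fun y => g (rho y))) z ≤ g (rho z) + g' (rho z) * d1 z + m / 2 * d2 z := by
  have hδ0 : 0 ≤ δ := le_trans (abs_nonneg _) (hδ z (nb_self z))
  have e : g (rho z) + g' (rho z) * d1 z + m / 2 * d2 z =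
      avg (avg (fun y => (g (rho z) + g' (rho z) * (rho y - rho z)) +
        m / 2 * (rho y - rho z) ^ 2)) z := by
    rw [avg2_add, avg2_add, avg2_mul, avg2_mul, avg2_const]
    rfl
  rw [e]
  refine avg2_mono fun y hy => ?_
  have h4 := abs_le.mp (hδ y hy)
  have h5 := taylor_up (m := m) h1 h2 h3 (s := rho z) (x := rho y - rho z) (by linarith)
    (by linarith) (by linarith [h4.1]) (by linarith [h4.2])
  rw [show rho z + (rho y - rho z) = rho y by ring] at h5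
  exact h5

/-- lower bound for the expectation of a function of `ρ` -/
lemma E_lo {g g' g'' : ℝ → ℝ} {z : V} {δ m : ℝ} (hδ : ∀ y, nb z y → |rho y - rho z| ≤ δ)
    (h1 : ∀ s, rho z - δ ≤ s → s ≤ rho z + δ → HasDerivAt g (g' s) s)
    (h2 : ∀ s, rho z - δ ≤ s → s ≤ rho z + δ → HasDerivAt g' (g'' s) s)
    (h3 : ∀ s, rho z - δ ≤ s → s ≤ rho z + δ → m ≤ g'' s) :
    g (rho z) + g' (rho z) * d1 z + m / 2 * d2 z ≤ avg (avg (fun y => g (rho y))) z := by
  have hδ0 : 0 ≤ δ := le_trans (abs_nonneg _) (hδ z (nb_self z))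
  have e : g (rho z) + g' (rho z) * d1 z + m / 2 * d2 z =
      avg (avg (fun y => (g (rho z) + g' (rho z) * (rho y - rho z)) +
        m / 2 * (rho y - rho z) ^ 2)) z := by
    rw [avg2_add, avg2_add, avg2_mul, avg2_mul, avg2_const]
    rfl
  rw [e]
  refine avg2_mono fun y hy => ?_
  have h4 := abs_le.mp (hδ y hy)
  have h5 := taylor_lo (m := m) h1 h2 h3 (s := rho z) (x := rho y - rho z) (by linarith)
    (by linarith) (by linarith [h4.1]) (by linarith [h4.2])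
  rw [show rho z + (rho y - rho z) = rho y by ring] at h5
  exact h5

lemma d2_nonneg (z : V) : 0 ≤ d2 z := by
  have := avg2_mono (g := fun _ => 0) (k := fun y => (rho y - rho z) ^ 2) (z := z)
    (fun y _ => sq_nonneg _)
  rw [avg2_const] at this
  exact this

lemma rho_ge (z : V) : 2 ≤ rho z := by
  unfold rho
  have h1 : Real.log 100 ≤ Real.log (R z) := Real.log_le_log (by norm_num) (R_ge z)
  have h2 : (4 : ℝ) ≤ Real.log 100 := by
    rw [Real.le_log_iff_exp_le (by norm_num)]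
    have h3 : Real.exp 4 = Real.exp 1 ^ 4 := by rw [← Real.exp_nat_mul]; norm_num
    rw [h3]
    have h4 := Real.exp_one_lt_d9
    have h5 : Real.exp 1 ^ 4 ≤ 2.7182818286 ^ 4 := by
      refine pow_le_pow_left₀ (Real.exp_pos 1).le ?_ 4
      linarith
    refine h5.trans ?_
    norm_num
  linarith

section
variable {a μ : ℝ} {Ψ Ψ' : ℝ → ℝ}

lemma prof_der (hP : Prof a μ Ψ Ψ') {M s : ℝ} (hM : 0 < M) (hs : 0 < s) (hs2 : s < 2 * M) :
    HasDerivAt (fun s => Ψ (s / M)) (Ψ' (s / M) / M) s ∧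
    HasDerivAt (fun s => Ψ' (s / M) / M) (-(μ / M ^ (a + 2) * (s ^ a * Ψ (s / M)))) s := by
  have h0 : 0 < s / M := div_pos hs hM
  have h2 : s / M < 2 := by rw [div_lt_iff₀ hM]; exact hs2
  have hd : HasDerivAt (fun s : ℝ => s / M) (1 / M) s := (hasDerivAt_id s).div_const M
  constructor
  · have := (hP.der (s / M) h0 h2).comp s hd
    rw [mul_one_div] at this
    exact this
  · have := ((hP.der2 (s / M) h0 h2).comp s hd).div_const M
    have e : -(μ * (s / M) ^ a * Ψ (s / M)) * (1 / M) / M =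
        -(μ / M ^ (a + 2) * (s ^ a * Ψ (s / M))) := by
      rw [Real.div_rpow hs.le hM.le, Real.rpow_add hM]
      have h3 : M ^ a ≠ 0 := (Real.rpow_pos_of_pos hM a).ne'
      have h4 : M ^ (2 : ℝ) = M ^ 2 := by norm_cast
      rw [h4]
      field_simp
    rw [e] at this
    exact this

lemma prof_lip (ha : -1 < a) (hP : Prof a μ Ψ Ψ') : ∃ Λ : ℝ, 0 < Λ ∧ ∀ s t, 0 < s → s < 2 → 0 < t →
    t < 2 → |Ψ s - Ψ t| ≤ Λ * |s - t| := by
  obtain ⟨C, hC⟩ := hP.bd
  have hC' : ∀ y, 0 < y → y < 2 → |Ψ' y| ≤ |C| * 2 ^ (a + 1) + 1 := by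
    intro y hy hy2
    have h1 : y ^ (a + 1) ≤ 2 ^ (a + 1) := Real.rpow_le_rpow hy.le hy2.le (by linarith)
    have h2 : 0 ≤ y ^ (a + 1) := Real.rpow_nonneg hy.le _
    calc |Ψ' y| ≤ C * y ^ (a + 1) := hC y hy hy2
      _ ≤ |C| * y ^ (a + 1) := mul_le_mul_of_nonneg_right (le_abs_self C) h2
      _ ≤ |C| * 2 ^ (a + 1) := mul_le_mul_of_nonneg_left h1 (abs_nonneg C)
      _ ≤ _ := by linarith
  refine ⟨|C| * 2 ^ (a + 1) + 1, ?_, ?_⟩
  · have : 0 ≤ |C| * 2 ^ (a + 1) := mul_nonneg (abs_nonneg C) (Real.rpow_nonneg (by norm_num) _)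
    linarith
  · intro s t hs hs2 ht ht2
    have := (convex_Ioo (0 : ℝ) 2).norm_image_sub_le_of_norm_hasDerivWithin_le
      (f := Ψ) (f' := Ψ') (C := |C| * 2 ^ (a + 1) + 1)
      (fun x hx => (hP.der x hx.1 hx.2).hasDerivWithinAt)
      (fun x hx => by rw [Real.norm_eq_abs]; exact hC' x hx.1 hx.2) (x := t) (y := s)
      ⟨ht, ht2⟩ ⟨hs, hs2⟩
    simpa [Real.norm_eq_abs] using this

lemma prof_anti (hP : Prof a μ Ψ Ψ') {s t : ℝ} (hs : 0 ≤ s) (hst : s ≤ t) (ht : t ≤ 1) :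
    Ψ t ≤ Ψ s := by
  have h : AntitoneOn Ψ (Set.Icc 0 1) := by
    refine antitoneOn_of_deriv_nonpos (convex_Icc 0 1)
      (hP.cont.mono (Set.Icc_subset_Icc le_rfl (by norm_num))) ?_ ?_
    · intro x hx
      rw [interior_Icc] at hx
      exact (hP.der x hx.1 (by linarith [hx.2])).differentiableAt.differentiableWithinAt
    · intro x hx
      rw [interior_Icc] at hx
      rw [(hP.der x hx.1 (by linarith [hx.2])).deriv]
      exact hP.nonpos x hx.1 hx.2.le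
  exact h ⟨hs, hst.trans ht⟩ ⟨hs.trans hst, ht⟩ hst

end

/-- powers are continuous at one -/
lemma rpow_near (a : ℝ) {e : ℝ} (he : 0 < e) : ∃ δ : ℝ, 0 < δ ∧ δ ≤ 1 / 2 ∧ ∀ q : ℝ, |q - 1| ≤ δ →
    1 - e ≤ q ^ a ∧ q ^ a ≤ 1 + e := by
  have h1 : ContinuousAt (fun q : ℝ => q ^ a) 1 := Real.continuousAt_rpow_const 1 a (Or.inl one_ne_zero)
  rw [Metric.continuousAt_iff] at h1
  obtain ⟨δ, hδ, h2⟩ := h1 e he
  refine ⟨min (δ / 2) (1 / 2), by positivity, min_le_right _ _, fun q hq => ?_⟩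
  have h3 : dist q 1 < δ := by
    rw [Real.dist_eq]
    have := hq.trans (min_le_left _ _)
    linarith
  have h4 := h2 h3
  rw [Real.dist_eq, Real.one_rpow, abs_lt] at h4
  constructor <;> linarith [h4.1, h4.2]

/-- powers of nearby numbers -/
lemma rpow_near' (a : ℝ) {e δ : ℝ} (h : ∀ q : ℝ, |q - 1| ≤ δ → 1 - e ≤ q ^ a ∧ q ^ a ≤ 1 + e)
    {s t : ℝ} (ht : 1 ≤ t) (hs : |s - t| ≤ δ) (hs0 : 0 < s) :
    (1 - e) * t ^ a ≤ s ^ a ∧ s ^ a ≤ (1 + e) * t ^ a := by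
  have ht0 : 0 < t := by linarith
  have h1 : |s / t - 1| ≤ δ := by
    have e1 : s / t - 1 = (s - t) / t := by field_simp
    rw [e1, abs_div, abs_of_pos ht0]
    exact (div_le_self (abs_nonneg _) ht).trans hs
  obtain ⟨h2, h3⟩ := h _ h1
  rw [Real.div_rpow hs0.le ht0.le] at h2 h3
  have hp : 0 < t ^ a := Real.rpow_pos_of_pos ht0 a
  rw [le_div_iff₀ hp] at h2
  rw [div_le_iff₀ hp] at h3
  exact ⟨h2, h3⟩

/-- neighbours stay in a slightly larger disc -/
lemma nb_exp {z y : V} (hy : nb z y) {L : ℝ} (hL : 1 ≤ L) (hz : ns z ≤ Real.exp (2 * L)) :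
    ns y ≤ Real.exp (2 * L + 2) := by
  have h1 := (abs_le.mp (ns_diff hy)).2
  have h2 : Real.sqrt (ns z) ≤ Real.exp L := by
    rw [Real.sqrt_le_left (Real.exp_pos L).le, ← Real.exp_nat_mul]
    exact_mod_cast hz
  have h3 : Real.exp (2 * L) = Real.exp L ^ 2 := by rw [← Real.exp_nat_mul]; norm_num
  have h4 : Real.exp (2 * L + 2) = Real.exp L ^ 2 * Real.exp 1 ^ 2 := by
    rw [Real.exp_add, h3]
    congr 1
    rw [← Real.exp_nat_mul]; norm_num
  have h5 : 2 ≤ Real.exp L := by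
    have := Real.add_one_le_exp L
    linarith
  have h6 : 2 ≤ Real.exp 1 := by
    have := Real.add_one_le_exp 1
    linarith
  have h7 : 4 ≤ Real.exp 1 ^ 2 := by nlinarith
  rw [h4]
  rw [h3] at hz
  nlinarith [mul_nonneg (sq_nonneg (Real.exp L)) (by linarith : 0 ≤ Real.exp 1 ^ 2 - 4)]

lemma rho_le {y : V} {L : ℝ} (hL : 1 ≤ L) (hy : ns y ≤ Real.exp (2 * L + 2)) : rho y ≤ L + 2 := by
  unfold rho
  rw [div_le_iff₀ (by norm_num), Real.log_le_iff_le_exp (R_pos y)]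
  unfold R
  have h1 : Real.exp ((L + 2) * 2) = Real.exp (2 * L + 2) * Real.exp 1 ^ 2 := by
    rw [← Real.exp_nat_mul, ← Real.exp_add]; norm_num; ring
  have h6 : 2.7 ≤ Real.exp 1 := by
    have := Real.exp_one_gt_d9
    linarith
  have h2 : Real.exp 4 ≤ Real.exp (2 * L + 2) := Real.exp_le_exp.mpr (by linarith)
  have h3 : Real.exp 4 = Real.exp 1 ^ 4 := by rw [← Real.exp_nat_mul]; norm_num
  have h4 : (2.7 : ℝ) ^ 4 ≤ Real.exp 1 ^ 4 := pow_le_pow_left₀ (by norm_num) h6 4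
  have h5 : (50 : ℝ) ≤ Real.exp (2 * L + 2) := by
    rw [h3] at h2
    have : (50 : ℝ) ≤ 2.7 ^ 4 := by norm_num
    linarith
  rw [h1]
  have h7 : (7 : ℝ) ≤ Real.exp 1 ^ 2 := by nlinarith
  nlinarith

end Pool.Agent.H294.DP
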