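import Mathlib
import Pool.Agent.H964.DP.Stm

/-! # The function `ρ z = log (100 + ns z) / 2` under two steps of simple random walk -/

set_option autoImplicit false

open Filter Finset
open Pool.Agent.H964.DP (V ns stp avg)

namespace Pool.Agent.H294.DP

/-- second neighbours -/
def nb (z y : V) : Prop := ∃ e e' : Fin 4, y = z + stp e + stp e'

lemma avg2_def (g : V → ℝ) (z : V) :
    avg (avg g) z = (∑ e : Fin 4, ∑ e' : Fin 4, g (z + stp e + stp e')) / 16 := by
  unfold avg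
  rw [← Finset.sum_div]
  ring

lemma avg2_mono {g k : V → ℝ} {z : V} (h : ∀ y, nb z y → g y ≤ k y) :
    avg (avg g) z ≤ avg (avg k) z := by
  rw [avg2_def, avg2_def]
  refine div_le_div_of_nonneg_right ?_ (by norm_num)
  exact Finset.sum_le_sum fun e _ => Finset.sum_le_sum fun e' _ => h _ ⟨e, e', rfl⟩

lemma avg2_congr {g k : V → ℝ} {z : V} (h : ∀ y, nb z y → g y = k y) :
    avg (avg g) z = avg (avg k) z :=
  le_antisymm (avg2_mono fun y hy => (h y hy).le) (avg2_mono fun y hy => (h y hy).ge)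

lemma avg2_add (g k : V → ℝ) (z : V) :
    avg (avg (fun y => g y + k y)) z = avg (avg g) z + avg (avg k) z := by
  simp only [avg2_def, Finset.sum_add_distrib, add_div]

lemma avg2_mul (c : ℝ) (g : V → ℝ) (z : V) :
    avg (avg (fun y => c * g y)) z = c * avg (avg g) z := by
  simp only [avg2_def, ← Finset.mul_sum, mul_div_assoc]

lemma avg2_const (c : ℝ) (z : V) : avg (avg (fun _ => c)) z = c := by
  rw [avg2_def]
  simp only [Finset.sum_const, Finset.card_univ, Fintype.card_fin]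
  norm_num
  ring

lemma avg2_eq (g : V → ℝ) (z : V) :
    avg (avg g) z = (4 * g z + (g (z + (2, 0)) + g (z + (-2, 0)) + g (z + (0, 2)) +
      g (z + (0, -2))) + 2 * (g (z + (1, 1)) + g (z + (1, -1)) + g (z + (-1, 1)) +
      g (z + (-1, -1)))) / 16 := by
  rw [avg2_def]
  simp only [Fin.sum_univ_four, stp, Matrix.cons_val_zero, Matrix.cons_val_one,
    Matrix.cons_val, add_assoc z]
  have e1 : ((1 : ℤ), (0 : ℤ)) + (1, 0) = (2, 0) := rfl
  have e2 : ((1 : ℤ), (0 : ℤ)) + (-1, 0) = 0 := rfl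
  have e3 : ((1 : ℤ), (0 : ℤ)) + (0, 1) = (1, 1) := rfl
  have e4 : ((1 : ℤ), (0 : ℤ)) + (0, -1) = (1, -1) := rfl
  have e5 : ((-1 : ℤ), (0 : ℤ)) + (1, 0) = 0 := rfl
  have e6 : ((-1 : ℤ), (0 : ℤ)) + (-1, 0) = (-2, 0) := rfl
  have e7 : ((-1 : ℤ), (0 : ℤ)) + (0, 1) = (-1, 1) := rfl
  have e8 : ((-1 : ℤ), (0 : ℤ)) + (0, -1) = (-1, -1) := rfl
  have e9 : ((0 : ℤ), (1 : ℤ)) + (1, 0) = (1, 1) := rfl
  have e10 : ((0 : ℤ), (1 : ℤ)) + (-1, 0) = (-1, 1) := rfl
  have e11 : ((0 : ℤ), (1 : ℤ)) + (0, 1) = (0, 2) := rfl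
  have e12 : ((0 : ℤ), (1 : ℤ)) + (0, -1) = 0 := rfl
  have e13 : ((0 : ℤ), (-1 : ℤ)) + (1, 0) = (1, -1) := rfl
  have e14 : ((0 : ℤ), (-1 : ℤ)) + (-1, 0) = (-1, -1) := rfl
  have e15 : ((0 : ℤ), (-1 : ℤ)) + (0, 1) = 0 := rfl
  have e16 : ((0 : ℤ), (-1 : ℤ)) + (0, -1) = (0, -2) := rfl
  rw [e1, e2, e3, e4, e5, e6, e7, e8, e9, e10, e11, e12, e13, e14, e15, e16, add_zero]
  ring

/-- `R z = 100 + ns z` -/
noncomputable def R (z : V) : ℝ := 100 + ns z

/-- `ρ z = log (R z) / 2` -/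
noncomputable def rho (z : V) : ℝ := Real.log (R z) / 2

lemma ns_nonneg (z : V) : 0 ≤ ns z := by unfold ns; positivity

lemma R_ge (z : V) : 100 ≤ R z := by have := ns_nonneg z; unfold R; linarith

lemma R_pos (z : V) : 0 < R z := by have := R_ge z; linarith

/-- the relative change of `R` -/
noncomputable def tt (z y : V) : ℝ := (R y - R z) / R z

lemma one_add_tt (z y : V) : 1 + tt z y = R y / R z := by
  have := (R_pos z).ne'
  unfold tt; field_simp; ring

lemma nb_cases {z y : V} (h : nb z y) : ∃ v w : ℤ, y = (z.1 + v, z.2 + w) ∧ v ^ 2 + w ^ 2 ≤ 4 := by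
  obtain ⟨e, e', rfl⟩ := h
  refine ⟨(stp e).1 + (stp e').1, (stp e).2 + (stp e').2, ?_, ?_⟩
  · ext
    · simp [add_assoc]
    · simp [add_assoc]
  · fin_cases e <;> fin_cases e' <;> simp [stp]

lemma nb_self (z : V) : nb z z := by
  refine ⟨0, 1, ?_⟩
  ext <;> simp [stp]

/-- `|ns y - ns z| ≤ 4 √(ns z) + 4` -/
lemma ns_diff {z y : V} (h : nb z y) : |ns y - ns z| ≤ 4 * Real.sqrt (ns z) + 4 := by
  obtain ⟨v, w, rfl, hvw⟩ := nb_cases h
  have hvw' : (v : ℝ) ^ 2 + (w : ℝ) ^ 2 ≤ 4 := by exact_mod_cast hvw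
  have h0 : 0 ≤ (v : ℝ) ^ 2 + (w : ℝ) ^ 2 := by positivity
  have e1 : ns (z.1 + v, z.2 + w) - ns z = 2 * (z.1 * v + z.2 * w) + ((v : ℝ) ^ 2 + (w : ℝ) ^ 2) := by
    unfold ns; push_cast; ring
  rw [e1]
  have h2 : |((z.1 : ℝ) * v + z.2 * w)| ≤ 2 * Real.sqrt (ns z) := by
    have h3 : ((z.1 : ℝ) * v + z.2 * w) ^ 2 ≤ (2 * Real.sqrt (ns z)) ^ 2 := by
      rw [mul_pow, Real.sq_sqrt (ns_nonneg z)]
      have h4 : ((z.1 : ℝ) * v + z.2 * w) ^ 2 ≤ ns z * ((v : ℝ) ^ 2 + (w : ℝ) ^ 2) := by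
        unfold ns
        nlinarith [sq_nonneg ((z.1 : ℝ) * w - z.2 * v)]
      have h5 : ns z * ((v : ℝ) ^ 2 + (w : ℝ) ^ 2) ≤ ns z * 4 :=
        mul_le_mul_of_nonneg_left hvw' (ns_nonneg z)
      linarith
    exact abs_le_of_sq_le_sq h3 (by positivity)
  rw [abs_le] at h2 ⊢
  constructor <;> linarith [h2.1, h2.2]

lemma tt_le {z y : V} (h : nb z y) : |tt z y| ≤ 1 / 4 := by
  have h1 := ns_diff h
  have hR := R_pos z
  have e : R y - R z = ns y - ns z := by unfold R; ring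
  unfold tt
  rw [abs_div, abs_of_pos hR, div_le_iff₀ hR, e]
  have h2 : Real.sqrt (ns z) * 20 ≤ ns z + 100 := by
    nlinarith [sq_nonneg (Real.sqrt (ns z) - 10), Real.sq_sqrt (ns_nonneg z)]
  have h3 : R z = 100 + ns z := rfl
  have h4 := ns_nonneg z
  rw [h3]
  linarith

lemma tt_le' {z y : V} (h : nb z y) : |tt z y| ≤ 8 / Real.sqrt (R z) := by
  have h1 := ns_diff h
  have hR := R_pos z
  have e : R y - R z = ns y - ns z := by unfold R; ring
  have hs : 0 < Real.sqrt (R z) := Real.sqrt_pos.mpr hR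
  have hs1 : 1 ≤ Real.sqrt (R z) := by
    rw [Real.one_le_sqrt]; linarith [R_ge z]
  have h2 : Real.sqrt (ns z) ≤ Real.sqrt (R z) := Real.sqrt_le_sqrt (by unfold R; linarith)
  have h3 : R z = Real.sqrt (R z) * Real.sqrt (R z) := (Real.mul_self_sqrt hR.le).symm
  unfold tt
  rw [abs_div, abs_of_pos hR, div_le_div_iff₀ hR hs, e]
  calc |ns y - ns z| * Real.sqrt (R z) ≤ (8 * Real.sqrt (R z)) * Real.sqrt (R z) := by
        refine mul_le_mul_of_nonneg_right ?_ hs.le
        linarith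
    _ = 8 * R z := by rw [mul_assoc, ← h3]

lemma drho {z y : V} : rho y - rho z = Real.log (1 + tt z y) / 2 := by
  rw [one_add_tt, Real.log_div (R_pos y).ne' (R_pos z).ne']
  unfold rho; ring

/-! ### bounds for the logarithm -/

/-- `t - t²/2 + t³/3 - log (1 + t)` is nonnegative and at most `t⁴/2` -/
lemma log_cubic {t : ℝ} (ht : -(1 / 2) ≤ t) :
    Real.log (1 + t) ≤ t - t ^ 2 / 2 + t ^ 3 / 3 ∧
      t - t ^ 2 / 2 + t ^ 3 / 3 - t ^ 4 / 2 ≤ Real.log (1 + t) := by
  -- derivatives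
  have hd : ∀ s : ℝ, -(1 / 2) ≤ s → HasDerivAt (fun s : ℝ => s - s ^ 2 / 2 + s ^ 3 / 3 -
      Real.log (1 + s)) (s ^ 3 / (1 + s)) s := by
    intro s hs
    have h1 : (1 + s) ≠ 0 := by linarith
    have h2 : HasDerivAt (fun s : ℝ => s - s ^ 2 / 2 + s ^ 3 / 3 - Real.log (1 + s))
        (1 - (2 * s) / 2 + (3 * s ^ 2) / 3 - 1 / (1 + s)) s := by
      have a1 : HasDerivAt (fun s : ℝ => s) 1 s := hasDerivAt_id s
      have a2 : HasDerivAt (fun s : ℝ => s ^ 2 / 2) ((2 * s) / 2) s := by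
        have := (hasDerivAt_pow 2 s).div_const 2
        simpa using this
      have a3 : HasDerivAt (fun s : ℝ => s ^ 3 / 3) ((3 * s ^ 2) / 3) s := by
        have := (hasDerivAt_pow 3 s).div_const 3
        simpa using this
      have a4 : HasDerivAt (fun s : ℝ => Real.log (1 + s)) (1 / (1 + s)) s := by
        have := ((hasDerivAt_id s).const_add 1).log h1
        simpa using this
      exact ((a1.sub a2).add a3).sub a4
    have e : (1 - (2 * s) / 2 + (3 * s ^ 2) / 3 - 1 / (1 + s)) = s ^ 3 / (1 + s) := by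
      field_simp; ring
    rw [e] at h2
    exact h2
  have hd4 : ∀ s : ℝ, -(1 / 2) ≤ s → HasDerivAt (fun s : ℝ => (s - s ^ 2 / 2 + s ^ 3 / 3 -
      Real.log (1 + s)) - s ^ 4 / 2) (s ^ 3 / (1 + s) - 2 * s ^ 3) s := by
    intro s hs
    have a5 : HasDerivAt (fun s : ℝ => s ^ 4 / 2) (2 * s ^ 3) s := by
      have := (hasDerivAt_pow 4 s).div_const 2
      have e : ((4 : ℕ) : ℝ) * s ^ (4 - 1) / 2 = 2 * s ^ 3 := by norm_num; ring
      rw [e] at this
      exact this
    exact (hd s hs).sub a5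
  rcases le_or_gt 0 t with h0 | h0
  · have mono : MonotoneOn (fun s : ℝ => s - s ^ 2 / 2 + s ^ 3 / 3 - Real.log (1 + s))
        (Set.Icc 0 t) := by
      refine monotoneOn_of_deriv_nonneg (convex_Icc 0 t) ?_ ?_ ?_
      · intro s hs
        exact (hd s (by linarith [hs.1])).continuousAt.continuousWithinAt
      · intro s hs
        rw [interior_Icc] at hs
        exact (hd s (by linarith [hs.1])).differentiableAt.differentiableWithinAt
      · intro s hs
        rw [interior_Icc] at hs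
        rw [(hd s (by linarith [hs.1])).deriv]
        have : 0 ≤ s := hs.1.le
        positivity
    have anti : AntitoneOn (fun s : ℝ => (s - s ^ 2 / 2 + s ^ 3 / 3 -
        Real.log (1 + s)) - s ^ 4 / 2) (Set.Icc 0 t) := by
      refine antitoneOn_of_deriv_nonpos (convex_Icc 0 t) ?_ ?_ ?_
      · intro s hs
        exact (hd4 s (by linarith [hs.1])).continuousAt.continuousWithinAt
      · intro s hs
        rw [interior_Icc] at hs
        exact (hd4 s (by linarith [hs.1])).differentiableAt.differentiableWithinAt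
      · intro s hs
        rw [interior_Icc] at hs
        rw [(hd4 s (by linarith [hs.1])).deriv]
        have h1 : 0 < s := hs.1
        have h2 : s ^ 3 / (1 + s) ≤ s ^ 3 := div_le_self (by positivity) (by linarith)
        have h3 : 0 ≤ s ^ 3 := by positivity
        linarith
    have m1 := mono (Set.left_mem_Icc.mpr h0) (Set.right_mem_Icc.mpr h0) h0
    have m2 := anti (Set.left_mem_Icc.mpr h0) (Set.right_mem_Icc.mpr h0) h0
    simp only [ne_eq, OfNat.ofNat_ne_zero, not_false_eq_true, zero_pow, zero_div, sub_zero,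
      add_zero, Real.log_one] at m1 m2
    constructor <;> linarith
  · have anti : AntitoneOn (fun s : ℝ => s - s ^ 2 / 2 + s ^ 3 / 3 - Real.log (1 + s))
        (Set.Icc t 0) := by
      refine antitoneOn_of_deriv_nonpos (convex_Icc t 0) ?_ ?_ ?_
      · intro s hs
        exact (hd s (by linarith [hs.1])).continuousAt.continuousWithinAt
      · intro s hs
        rw [interior_Icc] at hs
        exact (hd s (by linarith [hs.1])).differentiableAt.differentiableWithinAt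
      · intro s hs
        rw [interior_Icc] at hs
        rw [(hd s (by linarith [hs.1])).deriv]
        have h1 : s < 0 := hs.2
        have h2 : 0 < 1 + s := by linarith [hs.1]
        have h3 : s ^ 3 ≤ 0 := by nlinarith [sq_nonneg s]
        exact div_nonpos_of_nonpos_of_nonneg h3 h2.le
    have mono : MonotoneOn (fun s : ℝ => (s - s ^ 2 / 2 + s ^ 3 / 3 -
        Real.log (1 + s)) - s ^ 4 / 2) (Set.Icc t 0) := by
      refine monotoneOn_of_deriv_nonneg (convex_Icc t 0) ?_ ?_ ?_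
      · intro s hs
        exact (hd4 s (by linarith [hs.1])).continuousAt.continuousWithinAt
      · intro s hs
        rw [interior_Icc] at hs
        exact (hd4 s (by linarith [hs.1])).differentiableAt.differentiableWithinAt
      · intro s hs
        rw [interior_Icc] at hs
        rw [(hd4 s (by linarith [hs.1])).deriv]
        have h1 : s < 0 := hs.2
        have h2 : 1 / 2 ≤ 1 + s := by linarith [hs.1]
        have h3 : s ^ 3 ≤ 0 := by nlinarith [sq_nonneg s]
        have h4 : 2 * s ^ 3 ≤ s ^ 3 / (1 + s) := by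
          rw [le_div_iff₀ (by linarith)]
          nlinarith
        linarith
    have m1 := anti (Set.left_mem_Icc.mpr h0.le) (Set.right_mem_Icc.mpr h0.le) h0.le
    have m2 := mono (Set.left_mem_Icc.mpr h0.le) (Set.right_mem_Icc.mpr h0.le) h0.le
    simp only [ne_eq, OfNat.ofNat_ne_zero, not_false_eq_true, zero_pow, zero_div, sub_zero,
      add_zero, Real.log_one] at m1 m2
    constructor <;> linarith

lemma log_quad {t : ℝ} (ht : |t| ≤ 1 / 4) : |Real.log (1 + t) - t| ≤ t ^ 2 := by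
  have h1 := abs_le.mp ht
  obtain ⟨h2, h3⟩ := log_cubic (t := t) (by linarith)
  rw [abs_le]
  constructor
  · nlinarith [sq_nonneg t, mul_nonneg (sq_nonneg t) (by linarith [h1.1] : 0 ≤ t + 1 / 4),
      mul_nonneg (sq_nonneg t) (by linarith [h1.2] : 0 ≤ 1 / 4 - t),
      mul_nonneg (mul_nonneg (sq_nonneg t) (by linarith [h1.2] : 0 ≤ 1 / 4 - t))
        (by linarith [h1.1] : 0 ≤ t + 1 / 4)]
  · nlinarith [sq_nonneg t, mul_nonneg (sq_nonneg t) (by linarith [h1.1] : 0 ≤ t + 1 / 4),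
      mul_nonneg (sq_nonneg t) (by linarith [h1.2] : 0 ≤ 1 / 4 - t)]

/-! ### moments -/

lemma ns_add (z : V) (v w : ℤ) : ns (z + (v, w)) = ns z + 2 * (z.1 * v + z.2 * w) +
    ((v : ℝ) ^ 2 + (w : ℝ) ^ 2) := by
  unfold ns
  simp only [Prod.fst_add, Prod.snd_add]
  push_cast; ring

lemma tt_add (z : V) (v w : ℤ) : tt z (z + (v, w)) =
    (2 * (z.1 * v + z.2 * w) + ((v : ℝ) ^ 2 + (w : ℝ) ^ 2)) / R z := by
  unfold tt R
  rw [ns_add]
  ring

lemma tt_self (z : V) : tt z z = 0 := by unfold tt; simp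

lemma mom_cubic (z : V) : avg (avg (fun y => tt z y - tt z y ^ 2 / 2 + tt z y ^ 3 / 3)) z =
    2 / R z - (2 * ns z + 3) / R z ^ 2 + (12 * ns z + 20 / 3) / R z ^ 3 := by
  have hR := (R_pos z).ne'
  rw [avg2_eq]
  simp only [tt_add, tt_self]
  generalize hr : R z = r at hR ⊢
  have hns : ns z = (z.1 : ℝ) ^ 2 + (z.2 : ℝ) ^ 2 := rfl
  rw [hns]
  generalize (z.1 : ℝ) = x
  generalize (z.2 : ℝ) = y
  push_cast
  field_simp
  ring

lemma mom_four (z : V) : avg (avg (fun y => tt z y ^ 4)) z ≤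
    (40 * ns z ^ 2 + 240 * ns z + 72) / R z ^ 4 := by
  have hR := R_pos z
  have hns : ns z = (z.1 : ℝ) ^ 2 + (z.2 : ℝ) ^ 2 := rfl
  have h1 : avg (avg (fun y => tt z y ^ 4)) z =
      (40 * ((z.1 : ℝ) ^ 4 + (z.2 : ℝ) ^ 4) + 48 * (z.1 : ℝ) ^ 2 * (z.2 : ℝ) ^ 2 +
        240 * ns z + 72) / R z ^ 4 := by
    rw [avg2_eq]
    simp only [tt_add, tt_self]
    rw [hns]
    generalize hr : R z = r at hR ⊢
    have hr0 := hR.ne'
    generalize (z.1 : ℝ) = x
    generalize (z.2 : ℝ) = y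
    push_cast
    field_simp
    ring
  rw [h1]
  refine div_le_div_of_nonneg_right ?_ (by positivity)
  rw [hns]
  nlinarith [mul_nonneg (sq_nonneg (z.1 : ℝ)) (sq_nonneg (z.2 : ℝ))]

lemma mom_two (z : V) : avg (avg (fun y => tt z y ^ 2)) z = (4 * ns z + 6) / R z ^ 2 := by
  have hR := R_pos z
  have hns : ns z = (z.1 : ℝ) ^ 2 + (z.2 : ℝ) ^ 2 := rfl
  rw [avg2_eq]
  simp only [tt_add, tt_self]
  rw [hns]
  generalize hr : R z = r at hR ⊢
  have hr0 := hR.ne'
  generalize (z.1 : ℝ) = x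
  generalize (z.2 : ℝ) = y
  push_cast
  field_simp
  ring

/-- expected change of `ρ` -/
noncomputable def d1 (z : V) : ℝ := avg (avg (fun y => rho y - rho z)) z

/-- expected squared change of `ρ` -/
noncomputable def d2 (z : V) : ℝ := avg (avg (fun y => (rho y - rho z) ^ 2)) z

lemma d1_le (z : V) : d1 z ≤ 105 / R z ^ 2 := by
  have h1 : d1 z ≤ avg (avg (fun y => (1 / 2) * (tt z y - tt z y ^ 2 / 2 + tt z y ^ 3 / 3))) z := by
    refine avg2_mono fun y hy => ?_
    rw [drho]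
    have := (log_cubic (t := tt z y) (by linarith [(abs_le.mp (tt_le hy)).1])).1
    linarith
  rw [avg2_mul, mom_cubic] at h1
  refine h1.trans ?_
  have hR := R_ge z
  have hR0 := R_pos z
  have hns : ns z = R z - 100 := by unfold R; ring
  rw [hns]
  generalize R z = r at hR hR0
  have e : (1 / 2) * (2 / r - (2 * (r - 100) + 3) / r ^ 2 + (12 * (r - 100) + 20 / 3) / r ^ 3) =
      (209 / 2 - (600 - 10 / 3) / r) / r ^ 2 := by
    field_simp; ring
  rw [e]
  refine div_le_div_of_nonneg_right ?_ (by positivity)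
  have : 0 ≤ (600 - 10 / 3 : ℝ) / r := by positivity
  linarith

lemma d1_ge (z : V) : 80 / R z ^ 2 ≤ d1 z := by
  have h1 : avg (avg (fun y => (1 / 2) * ((tt z y - tt z y ^ 2 / 2 + tt z y ^ 3 / 3) +
      (-1 / 2) * tt z y ^ 4))) z ≤ d1 z := by
    refine avg2_mono fun y hy => ?_
    rw [drho]
    have := (log_cubic (t := tt z y) (by linarith [(abs_le.mp (tt_le hy)).1])).2
    linarith
  rw [avg2_mul, avg2_add, avg2_mul, mom_cubic] at h1
  refine le_trans ?_ h1
  have h4 := mom_four z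
  have hR := R_ge z
  have hR0 := R_pos z
  have hns : ns z = R z - 100 := by unfold R; ring
  rw [hns] at h4 ⊢
  generalize avg (avg fun y => tt z y ^ 4) z = m at h4 ⊢
  generalize R z = r at hR hR0 h4 ⊢
  have h5 : 80 / r ^ 2 ≤ (1 / 2) * (2 / r - (2 * (r - 100) + 3) / r ^ 2 +
      (12 * (r - 100) + 20 / 3) / r ^ 3 + (-1 / 2) *
        ((40 * (r - 100) ^ 2 + 240 * (r - 100) + 72) / r ^ 4)) := by
    have e : (1 / 2) * (2 / r - (2 * (r - 100) + 3) / r ^ 2 +
      (12 * (r - 100) + 20 / 3) / r ^ 3 + (-1 / 2) *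
        ((40 * (r - 100) ^ 2 + 240 * (r - 100) + 72) / r ^ 4)) - 80 / r ^ 2 =
        ((209 / 2 - 80 - 10) * r ^ 2 + (-600 + 10 / 3 - 60 + 2000) * r +
          (-100000 + 6000 - 18)) / r ^ 4 := by
      field_simp; ring
    have h6 : 0 ≤ ((209 / 2 - 80 - 10) * r ^ 2 + (-600 + 10 / 3 - 60 + 2000) * r +
          (-100000 + 6000 - 18)) / r ^ 4 := by
      refine div_nonneg ?_ (by positivity)
      nlinarith
    linarith
  linarith

lemma d1_pos (z : V) : 0 < d1 z :=
  lt_of_lt_of_le (div_pos (by norm_num) (pow_pos (R_pos z) 2)) (d1_ge z)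

lemma drho_le {z y : V} (h : nb z y) : |rho y - rho z| ≤ 8 / Real.sqrt (R z) := by
  have h1 := tt_le h
  have h2 := tt_le' h
  have h3 := log_quad h1
  rw [drho, abs_div, abs_of_pos (by norm_num : (0 : ℝ) < 2), div_le_iff₀ (by norm_num)]
  have h4 : |Real.log (1 + tt z y)| ≤ |tt z y| + tt z y ^ 2 := by
    calc |Real.log (1 + tt z y)| = |tt z y + (Real.log (1 + tt z y) - tt z y)| := by ring_nf
      _ ≤ |tt z y| + |Real.log (1 + tt z y) - tt z y| := abs_add_le _ _
      _ ≤ _ := by linarith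
  have h5 : tt z y ^ 2 ≤ |tt z y| := by
    rw [← sq_abs]
    nlinarith [abs_nonneg (tt z y)]
  linarith

lemma drho_le' {z y : V} (h : nb z y) : |rho y - rho z| ≤ 1 / 4 := by
  have h1 := tt_le h
  have h3 := log_quad h1
  rw [drho, abs_div, abs_of_pos (by norm_num : (0 : ℝ) < 2), div_le_iff₀ (by norm_num)]
  have h4 : |Real.log (1 + tt z y)| ≤ |tt z y| + tt z y ^ 2 := by
    calc |Real.log (1 + tt z y)| = |tt z y + (Real.log (1 + tt z y) - tt z y)| := by ring_nf
      _ ≤ |tt z y| + |Real.log (1 + tt z y) - tt z y| := abs_add_le _ _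
      _ ≤ _ := by linarith
  have h5 : tt z y ^ 2 ≤ (1 / 4) * |tt z y| := by
    rw [← sq_abs]
    nlinarith [abs_nonneg (tt z y)]
  linarith

/-- the error of the second moment -/
lemma sq_err {z y : V} (h : nb z y) : |(rho y - rho z) ^ 2 - tt z y ^ 2 / 4| ≤
    5 / Real.sqrt (R z) * tt z y ^ 2 := by
  have h1 := tt_le h
  have h2 := tt_le' h
  have h3 := log_quad h1
  rw [drho]
  have hs : 0 < Real.sqrt (R z) := Real.sqrt_pos.mpr (R_pos z)
  have e : (Real.log (1 + tt z y) / 2) ^ 2 - tt z y ^ 2 / 4 =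
      (Real.log (1 + tt z y) - tt z y) * (Real.log (1 + tt z y) + tt z y) / 4 := by ring
  rw [e, abs_div, abs_mul, abs_of_pos (by norm_num : (0 : ℝ) < 4)]
  have h4 : |Real.log (1 + tt z y) + tt z y| ≤ 5 / 2 * |tt z y| := by
    calc |Real.log (1 + tt z y) + tt z y| = |2 * tt z y + (Real.log (1 + tt z y) - tt z y)| := by
          ring_nf
      _ ≤ |2 * tt z y| + |Real.log (1 + tt z y) - tt z y| := abs_add_le _ _
      _ ≤ 2 * |tt z y| + tt z y ^ 2 := by
          rw [abs_mul, abs_of_pos (by norm_num : (0 : ℝ) < 2)]; linarith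
      _ ≤ _ := by
          have h5 : tt z y ^ 2 ≤ (1 / 4) * |tt z y| := by
            rw [← sq_abs]
            nlinarith [abs_nonneg (tt z y)]
          nlinarith [abs_nonneg (tt z y)]
  have h6 : |Real.log (1 + tt z y) - tt z y| * |Real.log (1 + tt z y) + tt z y| ≤
      tt z y ^ 2 * (5 / 2 * |tt z y|) :=
    mul_le_mul h3 h4 (abs_nonneg _) (sq_nonneg _)
  calc |Real.log (1 + tt z y) - tt z y| * |Real.log (1 + tt z y) + tt z y| / 4
      ≤ tt z y ^ 2 * (5 / 2 * |tt z y|) / 4 := by linarith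
    _ = 5 / 8 * |tt z y| * tt z y ^ 2 := by ring
    _ ≤ 5 / 8 * (8 / Real.sqrt (R z)) * tt z y ^ 2 := by
        refine mul_le_mul_of_nonneg_right ?_ (sq_nonneg _)
        linarith
    _ = _ := by ring

/-- `|E (Δρ)² - 1/R| ≤ 40 / R^(3/2)` -/
lemma d2_err (z : V) : |d2 z - 1 / R z| ≤ 40 / Real.sqrt (R z) / R z := by
  have hR := R_ge z
  have hR0 := R_pos z
  have hs : 0 < Real.sqrt (R z) := Real.sqrt_pos.mpr hR0
  have hs10 : 10 ≤ Real.sqrt (R z) := by
    rw [show (10 : ℝ) = Real.sqrt 100 by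
      rw [show (100 : ℝ) = 10 ^ 2 by norm_num, Real.sqrt_sq (by norm_num)]]
    exact Real.sqrt_le_sqrt hR
  have hss : Real.sqrt (R z) * Real.sqrt (R z) = R z := Real.mul_self_sqrt hR0.le
  have hns : ns z = R z - 100 := by unfold R; ring
  have h1 : d2 z ≤ avg (avg (fun y => (1 / 4 + 5 / Real.sqrt (R z)) * tt z y ^ 2)) z := by
    refine avg2_mono fun y hy => ?_
    have := (abs_le.mp (sq_err hy)).2
    linarith
  have h2 : avg (avg (fun y => (1 / 4 - 5 / Real.sqrt (R z)) * tt z y ^ 2)) z ≤ d2 z := by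
    refine avg2_mono fun y hy => ?_
    have := (abs_le.mp (sq_err hy)).1
    linarith
  rw [avg2_mul, mom_two, hns] at h1 h2
  generalize R z = r at *
  generalize Real.sqrt r = s at *
  have a1 : (4 * (r - 100) + 6) / r ^ 2 ≤ 4 / r := by
    rw [div_le_div_iff₀ (by positivity) hR0]
    nlinarith
  have a2 : 4 / r - 400 / r ^ 2 ≤ (4 * (r - 100) + 6) / r ^ 2 := by
    have : (4 * (r - 100) + 6) / r ^ 2 - (4 / r - 400 / r ^ 2) = 6 / r ^ 2 := by
      field_simp; ring
    have h6 : 0 ≤ 6 / r ^ 2 := by positivity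
    linarith
  have a3 : 100 / r ^ 2 ≤ 10 / s / r := by
    rw [div_div, div_le_div_iff₀ (by positivity) (by positivity)]
    rw [← hss]
    nlinarith [mul_pos hs hs, mul_pos (mul_pos hs hs) hs]
  have a4 : 0 < 5 / s := by positivity
  have a0 : 0 ≤ (4 * (r - 100) + 6) / r ^ 2 := by
    refine div_nonneg (by linarith) (by positivity)
  have b1 : 5 / s * (4 / r) = 20 / s / r := by ring
  have b2 : 1 / 4 * (4 / r) = 1 / r := by ring
  have b3 : 40 / s / r = 2 * (20 / s / r) := by ring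
  have b4 : 10 / s / r = (1 / 2) * (20 / s / r) := by ring
  have b5 : 0 < 20 / s / r := by positivity
  have b6 : 1 / 4 * (400 / r ^ 2) = 100 / r ^ 2 := by ring
  rw [abs_le]
  constructor
  · have c1 : 5 / s * ((4 * (r - 100) + 6) / r ^ 2) ≤ 20 / s / r := by
      rw [← b1]; exact mul_le_mul_of_nonneg_left a1 a4.le
    have c2 : (1 / 4 - 5 / s) * ((4 * (r - 100) + 6) / r ^ 2) =
        1 / 4 * ((4 * (r - 100) + 6) / r ^ 2) - 5 / s * ((4 * (r - 100) + 6) / r ^ 2) := by ring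
    rw [c2] at h2
    have c3 : 1 / r - 100 / r ^ 2 ≤ 1 / 4 * ((4 * (r - 100) + 6) / r ^ 2) := by
      rw [← b2, ← b6]; linarith
    linarith
  · have c1 : (1 / 4 + 5 / s) * ((4 * (r - 100) + 6) / r ^ 2) ≤ (1 / 4 + 5 / s) * (4 / r) :=
      mul_le_mul_of_nonneg_left a1 (by linarith)
    have c2 : (1 / 4 + 5 / s) * (4 / r) = 1 / r + 20 / s / r := by ring
    linarith

end Pool.Agent.H294.DP
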